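import Mathlib

/-!
# Restricted growth functions and copies of patterns
-/

namespace Pool.Agent.Lib_helper37.RG

/-- `w` continues a restricted growth function with maximum `M`: every letter is at least `1` and at
most `1 +` the maximum of `M` and of the earlier letters. -/
def RGFFrom : ℕ → List ℕ → Prop
  | _, [] => True
  | M, a :: w => 1 ≤ a ∧ a ≤ M + 1 ∧ RGFFrom (max M a) w

/-- Restricted growth functions (RGF): `w_1 = 1` and `1 ≤ w_i ≤ 1 + max (w_1, …, w_(i-1))`. -/
def IsRGF (w : List ℕ) : Prop := RGFFrom 0 w

/-- The copies of `v` in `w`: the increasing choices of positions at which `w` is in the same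
relative order as `v`. -/
def copies (v w : List ℕ) : Set (Fin v.length → Fin w.length) :=
  {p | StrictMono p ∧ ∀ a b, w[p a] < w[p b] ↔ v[a] < v[b]}

/-- The set `R_(n,k)(v)` of the RGFs of length `n` with exactly `k` copies of `v`. -/
def Rset (v : List ℕ) (n k : ℕ) : Set (List ℕ) :=
  {w | w.length = n ∧ IsRGF w ∧ (copies v w).ncard = k}

/-- `N v n k = # R_(n,k)(v)`. -/
noncomputable def N (v : List ℕ) (n k : ℕ) : ℕ := (Rset v n k).ncard

end Pool.Agent.Lib_helper37.RG
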