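import Mathlib
import Pool.Agent.Lib_helper37.RG.Defs

/-!
# Basic facts on restricted growth functions
-/

namespace Pool.Agent.Lib_helper37.RG

/-- maximum of `M` and the letters -/
def mx (M : ℕ) (w : List ℕ) : ℕ := w.foldl max M

theorem mx_cons (M a : ℕ) (w : List ℕ) : mx M (a :: w) = mx (max M a) w := rfl

theorem mx_append (M : ℕ) (u w : List ℕ) : mx M (u ++ w) = mx (mx M u) w := by
  simp [mx, List.foldl_append]

theorem le_mx (M : ℕ) (w : List ℕ) : M ≤ mx M w := by
  induction w generalizing M with
  | nil => simp [mx]
  | cons a w ih => rw [mx_cons]; exact (le_max_left _ _).trans (ih _)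

theorem mem_le_mx (M : ℕ) (w : List ℕ) (a : ℕ) (h : a ∈ w) : a ≤ mx M w := by
  induction w generalizing M with
  | nil => simp at h
  | cons b w ih =>
    rw [mx_cons]
    rcases List.mem_cons.1 h with rfl | h
    · exact (le_max_right _ _).trans (le_mx _ _)
    · exact ih _ h

theorem mx_le (M K : ℕ) (w : List ℕ) (hM : M ≤ K) (h : ∀ a ∈ w, a ≤ K) : mx M w ≤ K := by
  induction w generalizing M with
  | nil => simpa [mx] using hM
  | cons b w ih =>
    rw [mx_cons]
    exact ih _ (max_le hM (h b (by simp))) (fun a ha => h a (by simp [ha]))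

theorem mx_eq_or (M : ℕ) (w : List ℕ) : mx M w = M ∨ mx M w ∈ w := by
  induction w generalizing M with
  | nil => left; rfl
  | cons b w ih =>
    rw [mx_cons]
    rcases ih (max M b) with h | h
    · rcases le_total M b with h2 | h2
      · right; rw [h, max_eq_right h2]; simp
      · left; rw [h, max_eq_left h2]
    · right; simp [h]

theorem RGFFrom.mono {M M' : ℕ} {w : List ℕ} (h : RGFFrom M w) (hM : M ≤ M') : RGFFrom M' w := by
  induction w generalizing M M' with
  | nil => trivial
  | cons a w ih =>
    obtain ⟨h1, h2, h3⟩ := h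
    exact ⟨h1, by omega, ih h3 (max_le_max hM le_rfl)⟩

theorem rgf_append (M : ℕ) (u w : List ℕ) :
    RGFFrom M (u ++ w) ↔ RGFFrom M u ∧ RGFFrom (mx M u) w := by
  induction u generalizing M with
  | nil => simp [RGFFrom, mx]
  | cons a u ih =>
    simp only [List.cons_append, RGFFrom, mx_cons, ih]
    tauto

theorem rgf_shift {M : ℕ} {w : List ℕ} (s : ℕ) (h : RGFFrom M w) :
    RGFFrom (M + s) (w.map (· + s)) := by
  induction w generalizing M with
  | nil => trivial
  | cons a w ih =>
    obtain ⟨h1, h2, h3⟩ := h
    refine ⟨?_, ?_, ?_⟩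
    · show 1 ≤ a + s
      omega
    · show a + s ≤ M + s + 1
      omega
    · have := ih h3
      have e : max (M + s) (a + s) = max M a + s := by omega
      rw [e]
      exact this

/-- letters above `s` are raised by `d` -/
def up (s d a : ℕ) : ℕ := if a ≤ s then a else a + d

theorem rgf_up {M M' s d : ℕ} {w : List ℕ} (h : RGFFrom M w) (hM : max s M + d ≤ M') :
    RGFFrom M' (w.map (up s d)) := by
  induction w generalizing M M' with
  | nil => trivial
  | cons a w ih =>
    obtain ⟨h1, h2, h3⟩ := h
    have hu : up s d a = if a ≤ s then a else a + d := rfl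
    refine ⟨?_, ?_, ?_⟩
    · show 1 ≤ up s d a
      rw [hu]; split_ifs <;> omega
    · show up s d a ≤ M' + 1
      rw [hu]; split_ifs <;> omega
    · refine ih h3 ?_
      show max s (max M a) + d ≤ max M' (up s d a)
      rw [hu]; split_ifs <;> omega

theorem rgf_iff (M : ℕ) (w : List ℕ) : RGFFrom M w ↔
    ∀ i, i < w.length → 1 ≤ w.getD i 0 ∧
      (w.getD i 0 ≤ M + 1 ∨ ∃ j, j < i ∧ w.getD i 0 ≤ w.getD j 0 + 1) := by
  induction w generalizing M with
  | nil => simp [RGFFrom]
  | cons a w ih =>
    simp only [RGFFrom, ih]
    constructor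
    · rintro ⟨h1, h2, h3⟩ i hi
      cases i with
      | zero => exact ⟨by simpa using h1, Or.inl (by simpa using h2)⟩
      | succ i =>
        have hi' : i < w.length := by simpa using hi
        obtain ⟨h4, h5⟩ := h3 i hi'
        refine ⟨by simpa using h4, ?_⟩
        rcases h5 with h5 | ⟨j, hj, h5⟩
        · rcases le_total M a with h6 | h6
          · right
            refine ⟨0, by omega, ?_⟩
            simp only [List.getD_cons_succ, List.getD_cons_zero]
            rw [max_eq_right h6] at h5
            exact h5
          · left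
            simp only [List.getD_cons_succ]
            rw [max_eq_left h6] at h5
            exact h5
        · right
          exact ⟨j + 1, by omega, by simpa using h5⟩
    · intro h
      have h0 := h 0 (by simp)
      simp only [List.getD_cons_zero] at h0
      refine ⟨h0.1, ?_, ?_⟩
      · rcases h0.2 with h1 | ⟨j, hj, _⟩
        · exact h1
        · omega
      · intro i hi
        have h1 := h (i + 1) (by simpa using hi)
        simp only [List.getD_cons_succ] at h1
        refine ⟨h1.1, ?_⟩
        rcases h1.2 with h2 | ⟨j, hj, h2⟩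
        · left
          exact h2.trans (by omega)
        · cases j with
          | zero =>
            left
            simp only [List.getD_cons_zero] at h2
            exact h2.trans (by omega)
          | succ j =>
            right
            exact ⟨j, by omega, by simpa using h2⟩

theorem IsRGF.pos {w : List ℕ} (h : IsRGF w) {i : ℕ} (hi : i < w.length) : 1 ≤ w.getD i 0 :=
  ((rgf_iff 0 w).1 h i hi).1

/-- every smaller letter occurs earlier -/
theorem IsRGF.earlier {w : List ℕ} (h : IsRGF w) (i : ℕ) (hi : i < w.length) (a : ℕ) (ha : 1 ≤ a)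
    (hai : a < w.getD i 0) : ∃ j, j < i ∧ w.getD j 0 = a := by
  induction i using Nat.strong_induction_on with
  | _ i ih =>
    obtain ⟨_, h2⟩ := (rgf_iff 0 w).1 h i hi
    rcases h2 with h2 | ⟨j, hj, h2⟩
    · omega
    · rcases Nat.lt_or_ge a (w.getD j 0) with h3 | h3
      · obtain ⟨j', hj', h4⟩ := ih j hj (by omega) h3
        exact ⟨j', by omega, h4⟩
      · exact ⟨j, hj, by omega⟩

/-- the letters `1, …, s` occur in this order before any letter above `s` -/
theorem IsRGF.chain {w : List ℕ} (h : IsRGF w) (s : ℕ) (i : ℕ) (hi : i < w.length)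
    (hs : s < w.getD i 0) : ∃ c : ℕ → ℕ, (∀ t, t < s → c t < i ∧ w.getD (c t) 0 = t + 1) ∧
      (∀ t t', t < t' → t' < s → c t < c t') := by
  induction s generalizing i with
  | zero => exact ⟨fun _ => 0, fun t ht => absurd ht (by omega), fun t t' _ h => absurd h (by omega)⟩
  | succ s ih =>
    obtain ⟨j, hj, hjs⟩ := h.earlier i hi (s + 1) (by omega) hs
    obtain ⟨c, hc1, hc2⟩ := ih j (by omega) (by omega)
    refine ⟨fun t => if t < s then c t else j, ?_, ?_⟩
    · intro t ht
      dsimp only
      split_ifs with h1
      · exact ⟨by have := (hc1 t h1).1; omega, (hc1 t h1).2⟩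
      · have : t = s := by omega
        subst this
        exact ⟨hj, hjs⟩
    · intro t t' htt ht'
      dsimp only
      have h1 : t < s := by omega
      rw [if_pos h1]
      split_ifs with h2
      · exact hc2 t t' htt h2
      · exact (hc1 t h1).1

theorem IsRGF.le_succ {w : List ℕ} (h : IsRGF w) (i : ℕ) (hi : i < w.length) :
    w.getD i 0 ≤ i + 1 := by
  induction i using Nat.strong_induction_on with
  | _ i ih =>
    obtain ⟨_, h2⟩ := (rgf_iff 0 w).1 h i hi
    rcases h2 with h2 | ⟨j, hj, h2⟩
    · omega
    · have := ih j hj (by omega)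
      omega

theorem finite_rgf (n : ℕ) : {w : List ℕ | w.length = n ∧ IsRGF w}.Finite := by
  have h : {w : List ℕ | w.length = n ∧ IsRGF w} ⊆
      (fun l : List (Fin (n + 1)) => l.map Fin.val) '' {l | l.length = n} := by
    rintro w ⟨hw, hr⟩
    have hb : ∀ a ∈ w, a < n + 1 := by
      intro a ha
      obtain ⟨i, hi, rfl⟩ := List.mem_iff_getElem.1 ha
      have := hr.le_succ i hi
      rw [List.getD_eq_getElem _ _ hi] at this
      omega
    refine ⟨w.pmap (fun a h => ⟨a, h⟩) hb, by simpa using hw, ?_⟩
    simp [List.map_pmap]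
  exact ((List.finite_length_eq (Fin (n + 1)) n).image _).subset h

end Pool.Agent.Lib_helper37.RG
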