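import Mathlib
import Pool.Agent.Lib_helper37.RG.Basic

/-!
# Copies as sequences of natural numbers
-/

namespace Pool.Agent.Lib_helper37.RG

/-- `p` is a copy of `v` in `w` (positions are natural numbers). -/
def Cop (v w : List ℕ) (p : Fin v.length → ℕ) : Prop :=
  StrictMono p ∧ (∀ a, p a < w.length) ∧
    ∀ a b : Fin v.length, w.getD (p a) 0 < w.getD (p b) 0 ↔ v.getD a 0 < v.getD b 0

theorem finite_cop (v w : List ℕ) : {p | Cop v w p}.Finite := by
  have h : {p | Cop v w p} ⊆ (fun q : Fin v.length → Fin w.length => fun a => (q a : ℕ)) '' Set.univ := by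
    rintro p ⟨_, h2, _⟩
    exact ⟨fun a => ⟨p a, h2 a⟩, trivial, rfl⟩
  exact (Set.finite_univ.image _).subset h

theorem ncard_copies (v w : List ℕ) : (copies v w).ncard = {p | Cop v w p}.ncard := by
  have hi : Function.Injective (fun q : Fin v.length → Fin w.length => fun a => (q a : ℕ)) := by
    intro q q' h
    funext a
    exact Fin.ext (congrFun h a)
  rw [← Set.ncard_image_of_injective _ hi]
  congr 1
  ext p
  constructor
  · rintro ⟨q, ⟨h1, h2⟩, rfl⟩
    refine ⟨fun a b hab => h1 hab, fun a => (q a).2, fun a b => ?_⟩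
    have := h2 a b
    simp only [Fin.getElem_fin] at this
    rw [List.getD_eq_getElem _ _ (q a).2, List.getD_eq_getElem _ _ (q b).2,
      List.getD_eq_getElem _ _ a.2, List.getD_eq_getElem _ _ b.2]
    exact this
  · rintro ⟨h1, h2, h3⟩
    refine ⟨fun a => ⟨p a, h2 a⟩, ⟨fun a b hab => h1 hab, fun a b => ?_⟩, rfl⟩
    have := h3 a b
    rw [List.getD_eq_getElem _ _ (h2 a), List.getD_eq_getElem _ _ (h2 b),
      List.getD_eq_getElem _ _ a.2, List.getD_eq_getElem _ _ b.2] at this
    simp only [Fin.getElem_fin]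
    exact this

theorem Cop.eq_iff {v w : List ℕ} {p : Fin v.length → ℕ} (h : Cop v w p) (a b : Fin v.length) :
    w.getD (p a) 0 = w.getD (p b) 0 ↔ v.getD a 0 = v.getD b 0 := by
  have h1 := h.2.2 a b
  have h2 := h.2.2 b a
  omega

theorem Cop.le_iff {v w : List ℕ} {p : Fin v.length → ℕ} (h : Cop v w p) (a b : Fin v.length) :
    w.getD (p a) 0 ≤ w.getD (p b) 0 ↔ v.getD a 0 ≤ v.getD b 0 := by
  have h2 := h.2.2 b a
  omega

/-- strictly increasing sequences into an interval of the same length are consecutive -/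
theorem consecutive {m : ℕ} (p : Fin m → ℕ) (hp : StrictMono p) (f h : ℕ)
    (h1 : ∀ a : Fin m, f ≤ a → h ≤ p a) (h2 : ∀ a : Fin m, p a < h + (m - f)) (a : Fin m)
    (ha : f ≤ a) : p a = h + (a - f) := by
  have lower : ∀ (k : ℕ) (hk : k < m), f ≤ k → h + (k - f) ≤ p ⟨k, hk⟩ := by
    intro k
    induction k with
    | zero =>
      intro hk hf
      have := h1 ⟨0, hk⟩ hf
      simpa using this
    | succ k ih =>
      intro hk hf
      rcases Nat.lt_or_ge k f with h3 | h3
      · have h4 := h1 ⟨k + 1, hk⟩ hf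
        omega
      · have h4 := ih (by omega) h3
        have h5 : p ⟨k, by omega⟩ < p ⟨k + 1, hk⟩ := hp (by simp [Fin.lt_def])
        omega
  have upper : ∀ (k : ℕ) (hk : k < m), p ⟨m - 1 - k, by omega⟩ + k < h + (m - f) := by
    intro k
    induction k with
    | zero =>
      intro hk
      exact h2 _
    | succ k ih =>
      intro hk
      have h4 := ih (by omega)
      have h5 : p ⟨m - 1 - (k + 1), by omega⟩ < p ⟨m - 1 - k, by omega⟩ :=
        hp (by simp only [Fin.lt_def]; omega)
      omega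
  have h3 := lower a a.2 ha
  have h4 := upper (m - 1 - a) (by omega)
  have e : (⟨m - 1 - (m - 1 - (a : ℕ)), by omega⟩ : Fin m) = a := by
    ext
    simp only
    omega
  rw [e] at h4
  have := a.2
  have e2 : (⟨(a : ℕ), a.2⟩ : Fin m) = a := rfl
  rw [e2] at h3
  omega

/-- least index with a property -/
theorem exists_least {m : ℕ} (P : Fin m → Prop) (a : Fin m) (ha : P a) :
    ∃ t : Fin m, P t ∧ t ≤ a ∧ ∀ i : Fin m, i < t → ¬ P i := by
  classical
  induction h : (a : ℕ) using Nat.strong_induction_on generalizing a with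
  | _ k ih =>
    by_cases hex : ∃ i : Fin m, i < a ∧ P i
    · obtain ⟨i, hi, hPi⟩ := hex
      obtain ⟨t, ht1, ht2, ht3⟩ := ih i (by omega) i hPi rfl
      exact ⟨t, ht1, ht2.trans hi.le, ht3⟩
    · push Not at hex
      exact ⟨a, ha, le_rfl, hex⟩

end Pool.Agent.Lib_helper37.RG
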