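import Mathlib
import Pool.Agent.Lib_helper37.RG.Cop

/-!
# The unique new copy
-/

namespace Pool.Agent.Lib_helper37.RG

/-- copies all of whose letters are above `s` -/
def CopT (v w : List ℕ) (s : ℕ) (p : Fin v.length → ℕ) : Prop :=
  Cop v w p ∧ ∀ a, s < w.getD (p a) 0

/-- The pattern `z` starts with an indecomposable block of length `f + 1 ≥ 2` (letters at most `al`)
and goes on with larger letters, the first of which is `al + 1`. -/
theorem core_split {z R : List ℕ} {s al ga f g h : ℕ} (hf : 1 ≤ f) (hfm : f + 1 < z.length)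
    (hR : R.length = h + (z.length - f)) (hag : al ≤ ga)
    (r1 : ∀ i, i < f → R.getD i 0 = z.getD i 0 + s)
    (r2 : ∀ i, f ≤ i → i < g → R.getD i 0 = al + 1 + (i - f) + s ∧ R.getD i 0 ≤ ga + s)
    (r3 : ∀ i, g ≤ i → i < h → s < R.getD i 0 → ga + s < R.getD i 0)
    (r4 : ∀ i, i < z.length - f → R.getD (h + i) 0 = z.getD (f + i) 0 + s)
    (z1 : ∀ i, i ≤ f → z.getD i 0 ≤ al)
    (z2 : ∀ i, f < i → i < z.length → al < z.getD i 0 ∧ z.getD i 0 ≤ ga)
    (z3 : z.getD (f + 1) 0 = al + 1)
    (cut : ∀ t, 1 ≤ t → t ≤ f → ¬ ∀ i j, i < t → t ≤ j → j ≤ f → z.getD i 0 < z.getD j 0)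
    (p : Fin z.length → ℕ) (hp : CopT z R s p) :
    (∀ a : Fin z.length, p a = if (a : ℕ) < f then (a : ℕ) else h + (a - f)) ∨
      (∀ a, g ≤ p a ∧ p a < h) := by
  obtain ⟨⟨hmono, hlt, hord⟩, hs⟩ := hp
  have hm : 0 < z.length := by omega
  by_cases hL : p ⟨f, by omega⟩ < h
  · right
    -- all of the first block is before `h`
    have hb : ∀ a : Fin z.length, (a : ℕ) ≤ f → p a < h := fun a ha =>
      lt_of_le_of_lt (hmono.monotone (show a ≤ ⟨f, by omega⟩ from ha)) hL
    have h0 : g ≤ p ⟨0, hm⟩ := by
      by_contra hcon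
      push Not at hcon
      by_cases h0f : p ⟨0, hm⟩ < f
      · -- first index with `p t ≥ f`
        have hpf : f ≤ p ⟨f, by omega⟩ := by
          have : ∀ (k : ℕ) (hk : k < z.length), k ≤ p ⟨k, hk⟩ := by
            intro k
            induction k with
            | zero => intro hk; omega
            | succ k ih =>
              intro hk
              have h5 : p ⟨k, by omega⟩ < p ⟨k + 1, hk⟩ := hmono (by simp [Fin.lt_def])
              have := ih (by omega)
              omega
          exact this f (by omega)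
        obtain ⟨t, ht1, ht2, ht3⟩ := exists_least (fun a => f ≤ p a) ⟨f, by omega⟩ hpf
        have ht2' : (t : ℕ) ≤ f := ht2
        have ht0 : 1 ≤ (t : ℕ) := by
          by_contra hc
          have : t = ⟨0, hm⟩ := by ext; simp; omega
          rw [this] at ht1
          omega
        refine cut t ht0 ht2' ?_
        intro i j hi htj hj
        have hi' : i < z.length := by omega
        have hj' : j < z.length := by omega
        have h6 : p ⟨i, hi'⟩ < f := by
          have := ht3 ⟨i, hi'⟩ hi
          omega
        have h7 : f ≤ p ⟨j, hj'⟩ := ht1.trans (hmono.monotone (show t ≤ ⟨j, hj'⟩ from htj))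
        have h8 : p ⟨j, hj'⟩ < h := hb ⟨j, hj'⟩ hj
        refine (hord ⟨i, hi'⟩ ⟨j, hj'⟩).1 ?_
        have h9 : R.getD (p ⟨i, hi'⟩) 0 ≤ al + s := by
          rw [r1 _ h6]
          have := z1 (p ⟨i, hi'⟩) (by omega)
          omega
        have h10 : al + s < R.getD (p ⟨j, hj'⟩) 0 := by
          rcases Nat.lt_or_ge (p ⟨j, hj'⟩) g with h11 | h11
          · have := (r2 _ h7 h11).1
            omega
          · have := r3 _ h11 h8 (hs _)
            omega
        omega
      · push Not at h0f
        refine cut 1 le_rfl hf ?_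
        intro i j hi htj hj
        have hi0 : i = 0 := by omega
        subst hi0
        have hj' : j < z.length := by omega
        have h8 : p ⟨j, hj'⟩ < h := hb ⟨j, hj'⟩ hj
        have h9 : p ⟨0, hm⟩ < p ⟨j, hj'⟩ := hmono (by simp only [Fin.lt_def]; omega)
        refine (hord ⟨0, hm⟩ ⟨j, hj'⟩).1 ?_
        have h12 := r2 _ h0f hcon
        rcases Nat.lt_or_ge (p ⟨j, hj'⟩) g with h11 | h11
        · have := (r2 _ (by omega) h11).1
          omega
        · have := r3 _ h11 h8 (hs _)
          omega
    have hge : ∀ a, g ≤ p a := fun a => h0.trans (hmono.monotone (show ⟨0, hm⟩ ≤ a from Nat.zero_le _))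
    have h0h : p ⟨0, hm⟩ < h := hb ⟨0, hm⟩ (Nat.zero_le _)
    have hv0 := r3 _ h0 h0h (hs _)
    intro a
    refine ⟨hge a, ?_⟩
    rcases Nat.lt_or_ge f a with ha | ha
    · by_contra hcon
      push Not at hcon
      have h1 : R.getD (p ⟨0, hm⟩) 0 < R.getD (p a) 0 := by
        refine (hord ⟨0, hm⟩ a).2 ?_
        have h2 := z1 0 (Nat.zero_le _)
        have h3 := (z2 a ha a.2).1
        exact lt_of_le_of_lt h2 h3
      have h4 : p a < h + (z.length - f) := by rw [← hR]; exact hlt a
      have h5 := r4 (p a - h) (by omega)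
      rw [Nat.add_sub_cancel' hcon] at h5
      have h6 : z.getD (f + (p a - h)) 0 ≤ ga := by
        rcases Nat.eq_zero_or_pos (p a - h) with h7 | h7
        · rw [h7]
          exact (z1 f le_rfl).trans hag
        · exact (z2 _ (by omega) (by omega)).2
      omega
    · exact hb a ha
  · left
    push Not at hL
    have htail : ∀ a : Fin z.length, f ≤ a → p a = h + (a - f) := by
      intro a ha
      refine consecutive p hmono f h ?_ ?_ a ha
      · intro b hb
        exact hL.trans (hmono.monotone (show (⟨f, by omega⟩ : Fin z.length) ≤ b from hb))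
      · intro b
        rw [← hR]
        exact hlt b
    intro a
    split_ifs with haf
    · -- the first `f` letters are in the front
      have hB : R.getD (p ⟨f + 1, hfm⟩) 0 = al + 1 + s := by
        rw [htail ⟨f + 1, hfm⟩ (by simp)]
        have := r4 1 (by omega)
        simp only
        rw [show f + 1 - f = 1 by omega, this, z3]
      have hfront : ∀ b : Fin z.length, (b : ℕ) < f → p b < f := by
        intro b hb
        have h1 : R.getD (p b) 0 < R.getD (p ⟨f + 1, hfm⟩) 0 := by
          refine (hord b ⟨f + 1, hfm⟩).2 ?_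
          have h2 := z1 b (by omega)
          have h3 : z.getD ((⟨f + 1, hfm⟩ : Fin z.length) : ℕ) 0 = al + 1 := z3
          omega
        rw [hB] at h1
        by_contra hcon
        push Not at hcon
        have h2 : p b < h := by
          have h3 : p b < p ⟨f, by omega⟩ := hmono (show b < ⟨f, by omega⟩ from hb)
          rw [htail ⟨f, by omega⟩ (by simp)] at h3
          simp only at h3
          omega
        rcases Nat.lt_or_ge (p b) g with h4 | h4
        · have := (r2 _ hcon h4).1
          omega
        · have := r3 _ h4 h2 (hs b)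
          omega
      -- apply `consecutive` to the first `f` values
      have h5 := consecutive (fun c : Fin f => p ⟨c, by omega⟩)
        (fun c d hcd => hmono hcd) 0 0 (fun c _ => Nat.zero_le _)
        (fun c => by
          have := hfront ⟨c, by omega⟩ c.2
          simpa using this) ⟨a, haf⟩ (Nat.zero_le _)
      simpa using h5
    · exact htail a (by omega)

/-- The pattern `z` is indecomposable (letters at most `ga`). -/
theorem core_indec {z R : List ℕ} {s ga : ℕ} (hm : 1 ≤ z.length)
    (r1 : ∀ i, i < z.length → R.getD i 0 = z.getD i 0 + s)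
    (r3 : ∀ i, z.length ≤ i → i < R.length → s < R.getD i 0 → ga + s < R.getD i 0)
    (z1 : ∀ i, i < z.length → z.getD i 0 ≤ ga)
    (cut : ∀ t, 1 ≤ t → t < z.length →
      ¬ ∀ i j, i < t → t ≤ j → j < z.length → z.getD i 0 < z.getD j 0)
    (p : Fin z.length → ℕ) (hp : CopT z R s p) :
    (∀ a : Fin z.length, p a = a) ∨ (∀ a, z.length ≤ p a ∧ p a < R.length) := by
  obtain ⟨⟨hmono, hlt, hord⟩, hs⟩ := hp
  by_cases h0 : z.length ≤ p ⟨0, by omega⟩
  · right
    intro a
    exact ⟨h0.trans (hmono.monotone (show ⟨0, by omega⟩ ≤ a from Nat.zero_le _)), hlt a⟩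
  · left
    push Not at h0
    by_cases hall : ∀ a, p a < z.length
    · intro a
      have h5 := consecutive p hmono 0 0 (fun c _ => Nat.zero_le _)
        (fun c => by simpa using hall c) a (Nat.zero_le _)
      simpa using h5
    · exfalso
      push Not at hall
      obtain ⟨a, ha⟩ := hall
      obtain ⟨t, ht1, ht2, ht3⟩ := exists_least (fun a => z.length ≤ p a) a ha
      have ht0 : 1 ≤ (t : ℕ) := by
        by_contra hc
        have : t = ⟨0, by omega⟩ := by ext; simp; omega
        rw [this] at ht1
        omega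
      refine cut t ht0 t.2 ?_
      intro i j hi htj hj
      have hi' : i < z.length := by omega
      have h6 : p ⟨i, hi'⟩ < z.length := by
        have := ht3 ⟨i, hi'⟩ hi
        omega
      have h7 : z.length ≤ p ⟨j, hj⟩ := ht1.trans (hmono.monotone (show t ≤ ⟨j, hj⟩ from htj))
      refine (hord ⟨i, hi'⟩ ⟨j, hj⟩).1 ?_
      have h9 : R.getD (p ⟨i, hi'⟩) 0 ≤ ga + s := by
        rw [r1 _ h6]
        have := z1 (p ⟨i, hi'⟩) h6
        omega
      have h10 := r3 _ h7 (hlt _) (hs _)
      omega

end Pool.Agent.Lib_helper37.RG
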