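import Mathlib
import Pool.Agent.Lib_helper37.RG.Core

/-!
# Wrapping a word to gain one copy
-/

namespace Pool.Agent.Lib_helper37.RG

theorem getD_left {u w : List ℕ} {i : ℕ} (h : i < u.length) : (u ++ w).getD i 0 = u.getD i 0 := by
  rw [List.getD_append _ _ _ _ h]

theorem getD_right {u w : List ℕ} {i : ℕ} (h : u.length ≤ i) :
    (u ++ w).getD i 0 = w.getD (i - u.length) 0 := by
  rw [List.getD_append_right _ _ _ _ h]

theorem getD_map' {w : List ℕ} (f : ℕ → ℕ) {i : ℕ} (h : i < w.length) :
    (w.map f).getD i 0 = f (w.getD i 0) := by
  rw [List.getD_eq_getElem _ _ (by simpa using h), List.getD_eq_getElem _ _ h, List.getElem_map]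

/-- the front, the raised word, the tail -/
def wrapS (F G : List ℕ) (d s : ℕ) (y : List ℕ) : List ℕ :=
  F.map (· + s) ++ (y.map (up s d) ++ G.map (· + s))

theorem up_gt {s d a : ℕ} : s < up s d a ↔ s < a := by
  unfold up; split_ifs <;> omega

theorem up_eq {s d a : ℕ} (h : s < a) : up s d a = a + d := by
  unfold up; split_ifs <;> omega

structure Wrap (z F G : List ℕ) (d : ℕ) : Prop where
  ne : F ≠ []
  rF : RGFFrom 0 F
  mF : d ≤ mx 0 F
  gG : ∀ a ∈ G, 1 ≤ a ∧ a ≤ d
  core : ∀ (s : ℕ) (y : List ℕ), ∃ p0 : Fin z.length → ℕ, (∀ a : Fin z.length, (a : ℕ) = 0 → p0 a = 0) ∧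
    CopT z (wrapS F G d s y) s p0 ∧ ∀ p, CopT z (wrapS F G d s y) s p →
      p = p0 ∨ (∀ a, F.length ≤ p a ∧ p a < F.length + y.length)

theorem wrapS_length (F G : List ℕ) (d s : ℕ) (y : List ℕ) :
    (wrapS F G d s y).length = F.length + y.length + G.length := by
  simp [wrapS]; omega

theorem wrapS_mid (F G : List ℕ) (d s : ℕ) (y : List ℕ) {i : ℕ} (hi : i < y.length) :
    (wrapS F G d s y).getD (F.length + i) 0 = up s d (y.getD i 0) := by
  unfold wrapS
  rw [getD_right (by simp), getD_left (by simp; omega)]
  simp only [List.length_map, Nat.add_sub_cancel_left]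
  exact getD_map' _ hi

theorem wrapS_front (F G : List ℕ) (d s : ℕ) (y : List ℕ) {i : ℕ} (hi : i < F.length) :
    (wrapS F G d s y).getD i 0 = F.getD i 0 + s := by
  unfold wrapS
  rw [getD_left (by simpa using hi)]
  exact getD_map' (· + s) hi

theorem wrapS_tail (F G : List ℕ) (d s : ℕ) (y : List ℕ) {i : ℕ} (hi : i < G.length) :
    (wrapS F G d s y).getD (F.length + y.length + i) 0 = G.getD i 0 + s := by
  unfold wrapS
  rw [getD_right (by simp; omega), getD_right (by simp; omega)]
  simp only [List.length_map]
  rw [show F.length + y.length + i - F.length - y.length = i by omega]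
  exact getD_map' (· + s) hi

/-- copies inside the raised word are copies in the word -/
theorem copT_mid (z F G : List ℕ) (d s : ℕ) (y : List ℕ) (q : Fin z.length → ℕ)
    (hq : ∀ a, q a < y.length) :
    CopT z (wrapS F G d s y) s (fun a => F.length + q a) ↔ CopT z y s q := by
  have hv : ∀ a, (wrapS F G d s y).getD (F.length + q a) 0 = up s d (y.getD (q a) 0) :=
    fun a => wrapS_mid F G d s y (hq a)
  have hup : ∀ a, s < y.getD (q a) 0 →
      (wrapS F G d s y).getD (F.length + q a) 0 = y.getD (q a) 0 + d := fun a ha => by
    rw [hv, up_eq ha]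
  constructor
  · rintro ⟨⟨h1, h2, h3⟩, h4⟩
    have h5 : ∀ a, s < y.getD (q a) 0 := fun a => by
      have := h4 a
      rw [hv] at this
      exact up_gt.1 this
    refine ⟨⟨fun a b hab => ?_, hq, fun a b => ?_⟩, h5⟩
    · have := h1 hab
      simp only at this
      omega
    · rw [← h3 a b, hup a (h5 a), hup b (h5 b)]
      omega
  · rintro ⟨⟨h1, h2, h3⟩, h5⟩
    refine ⟨⟨fun a b hab => ?_, fun a => ?_, fun a b => ?_⟩, fun a => ?_⟩
    · have := h1 hab
      simp only
      omega
    · show F.length + q a < _
      rw [wrapS_length]
      have := hq a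
      omega
    · rw [← h3 a b, hup a (h5 a), hup b (h5 b)]
      omega
    · rw [hup a (h5 a)]
      have := h5 a
      omega

theorem range'_rgf (M k : ℕ) : RGFFrom M (List.range' (M + 1) k) ∧
    mx M (List.range' (M + 1) k) = M + k := by
  induction k generalizing M with
  | zero => simp [RGFFrom, mx]
  | succ k ih =>
    rw [List.range'_succ]
    have := ih (M + 1)
    simp only [RGFFrom, mx_cons]
    rw [show max M (M + 1) = M + 1 by omega]
    refine ⟨⟨by omega, by omega, this.1⟩, ?_⟩
    rw [this.2]
    omega

/-- indecomposable patterns -/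
theorem wrap_indec {z : List ℕ} (hz : IsRGF z) (hm : 1 ≤ z.length)
    (cut : ∀ t, 1 ≤ t → t < z.length →
      ¬ ∀ i j, i < t → t ≤ j → j < z.length → z.getD i 0 < z.getD j 0) :
    Wrap z z [] (mx 0 z) where
  ne := by rintro rfl; simp at hm
  rF := hz
  mF := le_rfl
  gG := by simp
  core := by
    intro s y
    have hfr : ∀ i, i < z.length → (wrapS z [] (mx 0 z) s y).getD i 0 = z.getD i 0 + s :=
      fun i hi => wrapS_front z [] (mx 0 z) s y hi
    have hlen : (wrapS z [] (mx 0 z) s y).length = z.length + y.length := by
      rw [wrapS_length]; simp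
    refine ⟨fun a => a, fun a ha => ha, ⟨⟨fun a b hab => hab, fun a => ?_, fun a b => ?_⟩, fun a => ?_⟩,
      fun p hp => ?_⟩
    · show (a : ℕ) < _
      rw [hlen]
      have := a.2
      omega
    · rw [hfr _ a.2, hfr _ b.2]
      omega
    · rw [hfr _ a.2]
      have := hz.pos a.2
      omega
    · have h3 : ∀ i, z.length ≤ i → i < (wrapS z [] (mx 0 z) s y).length →
          s < (wrapS z [] (mx 0 z) s y).getD i 0 → mx 0 z + s < (wrapS z [] (mx 0 z) s y).getD i 0 := by
        intro i hi1 hi2 hi3
        rw [hlen] at hi2
        have e := wrapS_mid z [] (mx 0 z) s y (i := i - z.length) (by omega)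
        rw [Nat.add_sub_cancel' hi1] at e
        rw [e] at hi3 ⊢
        have h4 := up_gt.1 hi3
        rw [up_eq h4]
        omega
      have h1 : ∀ i, i < z.length → z.getD i 0 ≤ mx 0 z := by
        intro i hi
        refine mem_le_mx 0 z _ ?_
        rw [List.getD_eq_getElem _ _ hi]
        exact List.getElem_mem hi
      rcases core_indec hm hfr h3 h1 cut p hp with h | h
      · left
        funext a
        exact h a
      · right
        intro a
        have := h a
        rw [hlen] at this
        exact this

/-- patterns whose first block has at least two letters and is not everything -/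
theorem wrap_split {z : List ℕ} {f al ga : ℕ} (hz : IsRGF z) (hf : 1 ≤ f) (hfm : f + 1 < z.length)
    (z1 : ∀ i, i ≤ f → z.getD i 0 ≤ al)
    (z2 : ∀ i, f < i → i < z.length → al < z.getD i 0 ∧ z.getD i 0 ≤ ga)
    (z3 : z.getD (f + 1) 0 = al + 1) (z4 : al ≤ mx 0 (z.take f))
    (cut : ∀ t, 1 ≤ t → t ≤ f → ¬ ∀ i j, i < t → t ≤ j → j ≤ f → z.getD i 0 < z.getD j 0) :
    Wrap z (z.take f ++ List.range' (al + 1) (ga - al)) (z.drop f) ga := by
  have hal : al < ga := by
    have := z2 (f + 1) (by omega) hfm
    omega
  have hmx : mx 0 (z.take f) = al := by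
    refine le_antisymm (mx_le _ _ _ (Nat.zero_le _) ?_) z4
    intro a ha
    obtain ⟨i, hi, rfl⟩ := List.mem_iff_getElem.1 ha
    have hi' : i < f := by
      simp at hi
      omega
    have := z1 i hi'.le
    rw [List.getD_eq_getElem _ _ (by omega)] at this
    simpa using this
  have hlenF : (z.take f ++ List.range' (al + 1) (ga - al)).length = f + (ga - al) := by
    simp
    omega
  have hzsplit : z.take f ++ z.drop f = z := List.take_append_drop f z
  exact {
    ne := by
      intro h
      rw [h] at hlenF
      simp at hlenF
      omega
    rF := by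
      rw [rgf_append, hmx]
      refine ⟨?_, (range'_rgf al _).1⟩
      have : RGFFrom 0 (z.take f ++ z.drop f) := by rw [hzsplit]; exact hz
      exact ((rgf_append _ _ _).1 this).1
    mF := by
      rw [mx_append, hmx, (range'_rgf al _).2]
      omega
    gG := by
      intro a ha
      obtain ⟨i, hi, rfl⟩ := List.mem_iff_getElem.1 ha
      have hi' : f + i < z.length := by
        simp at hi
        omega
      have h1 := hz.pos hi'
      rw [List.getD_eq_getElem _ _ hi'] at h1
      rw [List.getElem_drop]
      refine ⟨h1, ?_⟩
      rcases Nat.eq_zero_or_pos i with h0 | h0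
      · subst h0
        have := z1 f le_rfl
        rw [List.getD_eq_getElem _ _ (by omega)] at this
        simp only [Nat.add_zero]
        omega
      · have := (z2 (f + i) (by omega) hi').2
        rw [List.getD_eq_getElem _ _ hi'] at this
        exact this
    core := by
      intro s y
      have hw1 : ∀ i, i < f → (wrapS (z.take f ++ List.range' (al + 1) (ga - al)) (z.drop f) ga s y).getD i 0 =
          z.getD i 0 + s := by
        intro i hi
        rw [wrapS_front _ _ _ _ _ (by rw [hlenF]; omega), getD_left (by simp; omega)]
        congr 1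
        rw [List.getD_eq_getElem _ _ (by simp; omega), List.getD_eq_getElem _ _ (by omega)]
        simp
      have hw2 : ∀ i, f ≤ i → i < f + (ga - al) →
          (wrapS (z.take f ++ List.range' (al + 1) (ga - al)) (z.drop f) ga s y).getD i 0 =
          al + 1 + (i - f) + s := by
        intro i hi1 hi2
        rw [wrapS_front _ _ _ _ _ (by rw [hlenF]; omega), getD_right (by simp; omega)]
        congr 1
        have e : (z.take f).length = f := by simp; omega
        rw [e, List.getD_eq_getElem _ _ (by simp; omega)]
        simp
      have hw4 : ∀ i, i < z.length - f →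
          (wrapS (z.take f ++ List.range' (al + 1) (ga - al)) (z.drop f) ga s y).getD
            (f + (ga - al) + y.length + i) 0 = z.getD (f + i) 0 + s := by
        intro i hi
        have := wrapS_tail (z.take f ++ List.range' (al + 1) (ga - al)) (z.drop f) ga s y (i := i)
          (by simpa using hi)
        rw [hlenF] at this
        rw [this]
        congr 1
        rw [List.getD_eq_getElem _ _ (by simpa using hi), List.getD_eq_getElem _ _ (by omega)]
        simp
      have hlenR : (wrapS (z.take f ++ List.range' (al + 1) (ga - al)) (z.drop f) ga s y).length =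
          f + (ga - al) + y.length + (z.length - f) := by
        rw [wrapS_length, hlenF]
        simp
      refine ⟨fun a => if (a : ℕ) < f then (a : ℕ) else f + (ga - al) + y.length + (a - f), ?_,
        ⟨⟨?_, ?_, ?_⟩, ?_⟩, ?_⟩
      · intro a ha
        simp only
        rw [if_pos (by omega), ha]
      · intro a b hab
        have hab' : (a : ℕ) < b := hab
        simp only
        split_ifs <;> omega
      · intro a
        rw [hlenR]
        have := a.2
        simp only
        split_ifs <;> omega
      · have hval : ∀ a : Fin z.length,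
            (wrapS (z.take f ++ List.range' (al + 1) (ga - al)) (z.drop f) ga s y).getD
              (if (a : ℕ) < f then (a : ℕ) else f + (ga - al) + y.length + (a - f)) 0 =
              z.getD a 0 + s := by
          intro a
          split_ifs with h
          · exact hw1 _ h
          · rw [hw4 _ (by have := a.2; omega), show f + ((a : ℕ) - f) = a by omega]
        intro a b
        simp only
        rw [hval a, hval b]
        omega
      · have hval : ∀ a : Fin z.length,
            (wrapS (z.take f ++ List.range' (al + 1) (ga - al)) (z.drop f) ga s y).getD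
              (if (a : ℕ) < f then (a : ℕ) else f + (ga - al) + y.length + (a - f)) 0 =
              z.getD a 0 + s := by
          intro a
          split_ifs with h
          · exact hw1 _ h
          · rw [hw4 _ (by have := a.2; omega), show f + ((a : ℕ) - f) = a by omega]
        intro a
        simp only
        rw [hval a]
        have := hz.pos a.2
        omega
      · intro p hp
        have h3 : ∀ i, f + (ga - al) ≤ i → i < f + (ga - al) + y.length →
            s < (wrapS (z.take f ++ List.range' (al + 1) (ga - al)) (z.drop f) ga s y).getD i 0 →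
            ga + s < (wrapS (z.take f ++ List.range' (al + 1) (ga - al)) (z.drop f) ga s y).getD i 0 := by
          intro i hi1 hi2 hi3
          have e := wrapS_mid (z.take f ++ List.range' (al + 1) (ga - al)) (z.drop f) ga s y
            (i := i - (f + (ga - al))) (by omega)
          rw [hlenF, Nat.add_sub_cancel' hi1] at e
          rw [e] at hi3 ⊢
          have h4 := up_gt.1 hi3
          rw [up_eq h4]
          omega
        rcases core_split hf hfm hlenR hal.le hw1
          (fun i hi1 hi2 => ⟨hw2 i hi1 hi2, by rw [hw2 i hi1 hi2]; omega⟩) h3 hw4 z1 z2 z3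
          cut p hp with h | h
        · left
          funext a
          exact h a
        · right
          intro a
          rw [hlenF]
          exact h a }

end Pool.Agent.Lib_helper37.RG
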