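import Mathlib
import Pool.Agent.Lib_helper37.RG.Wrap

/-!
# Every pattern that does not start with a lonely `1` can be wrapped
-/

namespace Pool.Agent.Lib_helper37.RG

theorem exists_wrap {z : List ℕ} (hz : IsRGF z) (hm : 1 ≤ z.length)
    (h1 : ∃ j, 1 ≤ j ∧ j < z.length ∧ z.getD j 0 ≤ z.getD 0 0) :
    ∃ F G d, Wrap z F G d := by
  classical
  obtain ⟨j0, hj0, hj0m, hj0z⟩ := h1
  let P : ℕ → Prop := fun t => 1 ≤ t ∧ ∀ i j, i < t → t ≤ j → j < z.length → z.getD i 0 < z.getD j 0
  have hex : ∃ t, P t := ⟨z.length, hm, fun i j _ h2 h3 => absurd h3 (by omega)⟩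
  obtain ⟨T, hT, hmin⟩ : ∃ T, P T ∧ ∀ t, t < T → ¬ P t :=
    ⟨Nat.find hex, Nat.find_spec hex, fun t ht => Nat.find_min hex ht⟩
  have hTm : T ≤ z.length := by
    by_contra hc
    exact hmin z.length (by omega) ⟨hm, fun i j _ h2 h3 => absurd h3 (by omega)⟩
  have hT2 : 2 ≤ T := by
    by_contra hc
    have hT1 : T = 1 := by have := hT.1; omega
    have := hT.2 0 j0 (by omega) (by omega) hj0m
    omega
  have hcut : ∀ t, 1 ≤ t → t < T →
      ¬ ∀ i j, i < t → t ≤ j → j < z.length → z.getD i 0 < z.getD j 0 :=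
    fun t ht1 ht2 h => hmin t ht2 ⟨ht1, h⟩
  rcases Nat.lt_or_ge T z.length with hTl | hTl
  · -- a proper first block
    obtain ⟨f, rfl⟩ : ∃ f, T = f + 1 := ⟨T - 1, by omega⟩
    have hcut' : ∀ t, 1 ≤ t → t ≤ f →
        ¬ ∀ i j, i < t → t ≤ j → j ≤ f → z.getD i 0 < z.getD j 0 := by
      intro t ht1 ht2 h
      refine hcut t ht1 (by omega) ?_
      intro i j hi hj hjm
      rcases Nat.lt_or_ge f j with h3 | h3
      · exact hT.2 i j (by omega) (by omega) hjm
      · exact h i j hi hj h3
    -- the maximum of the first block is attained before its last letter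
    have hlast : ∃ i, i < f ∧ z.getD f 0 ≤ z.getD i 0 := by
      by_contra hcon
      push Not at hcon
      refine hcut' f (by omega) le_rfl ?_
      intro i j hi hj hjf
      have : j = f := by omega
      subst this
      exact hcon i hi
    have hmem : ∀ i, i < f → z.getD i 0 ≤ mx 0 (z.take f) := by
      intro i hi
      refine mem_le_mx 0 _ _ ?_
      rw [List.getD_eq_getElem _ _ (by omega)]
      exact List.mem_take_iff_getElem.2 ⟨i, by omega, rfl⟩
    have z1 : ∀ i, i ≤ f → z.getD i 0 ≤ mx 0 (z.take f) := by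
      intro i hi
      rcases Nat.lt_or_ge i f with h3 | h3
      · exact hmem i h3
      · have : i = f := by omega
        subst this
        obtain ⟨i', hi', h4⟩ := hlast
        exact h4.trans (hmem i' hi')
    -- the maximum is one of the first letters
    have hmxmem : ∃ i, i < f ∧ z.getD i 0 = mx 0 (z.take f) := by
      rcases mx_eq_or 0 (z.take f) with h | h
      · exfalso
        have := hmem 0 (by omega)
        have h2 := hz.pos (i := 0) (by omega)
        omega
      · obtain ⟨i, hi, h2⟩ := List.mem_take_iff_getElem.1 h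
        refine ⟨i, by omega, ?_⟩
        rw [← h2, List.getD_eq_getElem _ _ (by omega)]
    obtain ⟨im, him, himx⟩ := hmxmem
    have z2 : ∀ i, f < i → i < z.length →
        mx 0 (z.take f) < z.getD i 0 ∧ z.getD i 0 ≤ mx 0 z := by
      intro i hi1 hi2
      refine ⟨?_, ?_⟩
      · rw [← himx]
        exact hT.2 im i (by omega) (by omega) hi2
      · refine mem_le_mx 0 z _ ?_
        rw [List.getD_eq_getElem _ _ hi2]
        exact List.getElem_mem hi2
    have z3 : z.getD (f + 1) 0 = mx 0 (z.take f) + 1 := by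
      have h2 := (z2 (f + 1) (by omega) hTl).1
      obtain ⟨_, h3⟩ := (rgf_iff 0 z).1 hz (f + 1) hTl
      rcases h3 with h3 | ⟨j, hj, h3⟩
      · omega
      · have := z1 j (by omega)
        omega
    exact ⟨_, _, _, wrap_split hz (by omega) hTl z1 z2 z3 le_rfl hcut'⟩
  · have : T = z.length := by omega
    subst this
    exact ⟨_, _, _, wrap_indec hz hm hcut⟩

end Pool.Agent.Lib_helper37.RG
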