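import Mathlib
import Pool.Agent.Lib_helper37.RG.Exist

/-!
# Avoiders give words with exactly `k` copies
-/

namespace Pool.Agent.Lib_helper37.RG

theorem up_inj {s d : ℕ} : Function.Injective (up s d) := by
  intro a b h
  unfold up at h
  split_ifs at h <;> omega

theorem wrapS_inj {F G : List ℕ} {d s : ℕ} {y y' : List ℕ}
    (h : wrapS F G d s y = wrapS F G d s y') : y = y' := by
  unfold wrapS at h
  have h1 := List.append_cancel_left h
  have h2 := List.append_cancel_right h1
  exact List.map_injective_iff.2 up_inj h2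

theorem mx_shift (M s : ℕ) (w : List ℕ) : mx (M + s) (w.map (· + s)) = mx M w + s := by
  induction w generalizing M with
  | nil => rfl
  | cons a w ih =>
    rw [List.map_cons, mx_cons, mx_cons, ← ih]
    congr 1
    omega

theorem rgf_of_le {M : ℕ} {w : List ℕ} (h : ∀ a ∈ w, 1 ≤ a ∧ a ≤ M) : RGFFrom M w := by
  induction w generalizing M with
  | nil => trivial
  | cons a w ih =>
    obtain ⟨h1, h2⟩ := h a (by simp)
    refine ⟨h1, by omega, ih (fun b hb => ?_)⟩
    obtain ⟨h3, h4⟩ := h b (by simp [hb])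
    exact ⟨h3, by omega⟩

/-- the wrapped word continues a restricted growth function with maximum `s` -/
theorem Wrap.rgf {z F G : List ℕ} {d : ℕ} (W : Wrap z F G d) (s : ℕ) {y : List ℕ} (hy : IsRGF y) :
    RGFFrom s (wrapS F G d s y) := by
  unfold wrapS
  rw [rgf_append, rgf_append]
  have h1 : RGFFrom (0 + s) (F.map (· + s)) := rgf_shift s W.rF
  rw [Nat.zero_add] at h1
  have h2 : mx s (F.map (· + s)) = mx 0 F + s := by
    have := mx_shift 0 s F
    rwa [Nat.zero_add] at this
  have h3 := W.mF
  refine ⟨h1, ?_, ?_⟩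
  · rw [h2]
    exact rgf_up hy (by omega)
  · refine rgf_of_le ?_
    intro a ha
    obtain ⟨b, hb, rfl⟩ := List.mem_map.1 ha
    obtain ⟨h4, h5⟩ := W.gG b hb
    have h6 := le_mx (mx s (F.map (· + s))) (y.map (up s d))
    omega

theorem copT_zero {z w : List ℕ} (hw : IsRGF w) (p : Fin z.length → ℕ) :
    CopT z w 0 p ↔ Cop z w p := by
  constructor
  · exact fun h => h.1
  · intro h
    exact ⟨h, fun a => hw.pos (h.2.1 a)⟩

theorem zero_rgf (w : List ℕ) : IsRGF w ↔ RGFFrom 0 w := Iff.rfl

/-- one more copy -/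
theorem Wrap.count {z F G : List ℕ} {d : ℕ} (W : Wrap z F G d) (hz : z ≠ []) {y : List ℕ}
    (hy : IsRGF y) :
    {p | Cop z (wrapS F G d 0 y) p}.ncard = {p | Cop z y p}.ncard + 1 := by
  obtain ⟨p0, h0, hp0, hall⟩ := W.core 0 y
  have hw : IsRGF (wrapS F G d 0 y) := W.rgf 0 hy
  have hm : 0 < z.length := List.length_pos_of_ne_nil hz
  have hF : 0 < F.length := List.length_pos_of_ne_nil W.ne
  have hset : {p | Cop z (wrapS F G d 0 y) p} =
      insert p0 ((fun q : Fin z.length → ℕ => fun a => F.length + q a) '' {p | Cop z y p}) := by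
    ext p
    constructor
    · intro hp
      rcases hall p ((copT_zero hw p).2 hp) with h | h
      · left; exact h
      · right
        refine ⟨fun a => p a - F.length, ?_, ?_⟩
        · have e : p = fun a => F.length + (p a - F.length) := by
            funext a
            have := h a
            omega
          have h2 := (copT_zero hw p).2 hp
          rw [e] at h2
          exact ((copT_mid z F G d 0 y _ (fun a => by have := h a; omega)).1 h2).1
        · funext a
          have := h a
          simp only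
          omega
    · rintro (rfl | ⟨q, hq, rfl⟩)
      · exact hp0.1
      · exact ((copT_mid z F G d 0 y q hq.2.1).2 ((copT_zero hy q).2 hq)).1
  have hnot : p0 ∉ (fun q : Fin z.length → ℕ => fun a => F.length + q a) '' {p | Cop z y p} := by
    rintro ⟨q, _, hq⟩
    have h1 := congrFun hq ⟨0, hm⟩
    rw [h0 ⟨0, hm⟩ rfl] at h1
    simp only at h1
    omega
  rw [hset, Set.ncard_insert_of_notMem hnot ((finite_cop z y).image _), Set.ncard_image_of_injective]
  intro q q' h
  funext a
  have := congrFun h a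
  simp only at this
  omega

theorem finite_Rset (v : List ℕ) (n k : ℕ) : (Rset v n k).Finite :=
  (finite_rgf n).subset (fun _ hw => ⟨hw.1, hw.2.1⟩)

theorem mem_Rset {v w : List ℕ} {n k : ℕ} :
    w ∈ Rset v n k ↔ w.length = n ∧ IsRGF w ∧ {p | Cop v w p}.ncard = k := by
  have h := ncard_copies v w
  constructor
  · rintro ⟨h1, h2, h3⟩
    exact ⟨h1, h2, by rw [← h]; exact h3⟩
  · rintro ⟨h1, h2, h3⟩
    exact ⟨h1, h2, by rw [h]; exact h3⟩

theorem N_le_of_inj {v v' : List ℕ} {n k n' k' : ℕ} (f : List ℕ → List ℕ)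
    (h1 : ∀ w ∈ Rset v n k, f w ∈ Rset v' n' k')
    (h2 : Set.InjOn f (Rset v n k)) : N v n k ≤ N v' n' k' :=
  Set.ncard_le_ncard_of_injOn f h1 h2 (finite_Rset v' n' k')

theorem Wrap.step {z F G : List ℕ} {d : ℕ} (W : Wrap z F G d) (hz : z ≠ []) (n j : ℕ) :
    N z n j ≤ N z (n + (F.length + G.length)) (j + 1) := by
  refine N_le_of_inj (wrapS F G d 0) ?_ (fun y _ y' _ h => wrapS_inj h)
  intro w hw
  obtain ⟨h1, h2, h3⟩ := mem_Rset.1 hw
  refine mem_Rset.2 ⟨?_, W.rgf 0 h2, ?_⟩
  · rw [wrapS_length, h1]; omega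
  · rw [W.count hz h2, h3]

theorem Wrap.iter {z F G : List ℕ} {d : ℕ} (W : Wrap z F G d) (hz : z ≠ []) (n k : ℕ) :
    N z n 0 ≤ N z (n + k * (F.length + G.length)) k := by
  induction k with
  | zero => simp
  | succ k ih =>
    refine ih.trans ((W.step hz _ _).trans ?_)
    rw [show n + k * (F.length + G.length) + (F.length + G.length) =
      n + (k + 1) * (F.length + G.length) by ring]

/-- the low prefix -/
def low (s k : ℕ) : List ℕ := List.replicate k 1 ++ List.range' 2 (s - 1)

theorem low_length {s k : ℕ} : (low s k).length = k + (s - 1) := by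
  simp [low]

theorem low_lt {s k i : ℕ} (hi : i < k) : (low s k).getD i 0 = 1 := by
  unfold low
  rw [getD_left (by simpa using hi), List.getD_eq_getElem _ _ (by simpa using hi)]
  simp

theorem low_ge {s k i : ℕ} (h1 : k ≤ i) (h2 : i < k + (s - 1)) : (low s k).getD i 0 = i - k + 2 := by
  unfold low
  rw [getD_right (by simpa using h1)]
  simp only [List.length_replicate]
  rw [List.getD_eq_getElem _ _ (by simp; omega)]
  simp
  omega

/-- the pattern `1 2 … s` followed by `z` raised by `s` -/
def lift (s : ℕ) (z : List ℕ) : List ℕ := List.range' 1 s ++ z.map (· + s)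

theorem lift_length (s : ℕ) (z : List ℕ) : (lift s z).length = s + z.length := by
  simp [lift]

theorem lift_lt {s : ℕ} {z : List ℕ} {i : ℕ} (hi : i < s) : (lift s z).getD i 0 = i + 1 := by
  unfold lift
  rw [getD_left (by simpa using hi), List.getD_eq_getElem _ _ (by simpa using hi)]
  simp
  omega

theorem lift_ge {s : ℕ} {z : List ℕ} {i : ℕ} (h1 : s ≤ i) (h2 : i < s + z.length) :
    (lift s z).getD i 0 = z.getD (i - s) 0 + s := by
  unfold lift
  rw [getD_right (by simpa using h1)]
  simp only [List.length_range']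
  exact getD_map' (· + s) (by omega)

/-- a copy of `z` above `s` gives a copy of the lifted pattern -/
theorem lift_copy {s : ℕ} {z w : List ℕ} (hz : IsRGF z) (hzne : z ≠ []) (hw : IsRGF w)
    (q : Fin z.length → ℕ) (hq : CopT z w s q) : ∃ p, Cop (lift s z) w p := by
  have hm : 0 < z.length := List.length_pos_of_ne_nil hzne
  obtain ⟨c, hc1, hc2⟩ := hw.chain s (q ⟨0, hm⟩) (hq.1.2.1 _) (hq.2 _)
  have hlen := lift_length s z
  have hq0 : ∀ a, q ⟨0, hm⟩ ≤ q a := fun a => hq.1.1.monotone (show ⟨0, hm⟩ ≤ a from Nat.zero_le _)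
  have hidx : ∀ a : Fin (lift s z).length, ¬ (a : ℕ) < s → (a : ℕ) - s < z.length := fun a ha => by
    have := a.2
    omega
  refine ⟨fun a => if h : (a : ℕ) < s then c a else q ⟨a - s, hidx a h⟩, ?_, ?_, ?_⟩
  · intro a b hab
    have hab' : (a : ℕ) < b := hab
    dsimp only
    by_cases h1 : (a : ℕ) < s
    · rw [dif_pos h1]
      by_cases h2 : (b : ℕ) < s
      · rw [dif_pos h2]
        exact hc2 _ _ hab' h2
      · rw [dif_neg h2]
        exact lt_of_lt_of_le (hc1 _ h1).1 (hq0 _)
    · rw [dif_neg h1, dif_neg (by omega)]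
      refine hq.1.1 ?_
      simp only [Fin.lt_def]
      omega
  · intro a
    dsimp only
    by_cases h1 : (a : ℕ) < s
    · rw [dif_pos h1]
      have h3 := (hc1 _ h1).1
      have h4 := hq.1.2.1 ⟨0, hm⟩
      omega
    · rw [dif_neg h1]
      exact hq.1.2.1 _
  · intro a b
    dsimp only
    by_cases h1 : (a : ℕ) < s
    · rw [dif_pos h1, lift_lt h1, (hc1 _ h1).2]
      by_cases h2 : (b : ℕ) < s
      · rw [dif_pos h2, lift_lt h2, (hc1 _ h2).2]
      · rw [dif_neg h2, lift_ge (by omega) (by have := b.2; omega)]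
        have h3 := hq.2 ⟨b - s, hidx b h2⟩
        have h4 := hz.pos (hidx b h2)
        omega
    · rw [dif_neg h1, lift_ge (by omega) (by have := a.2; omega)]
      by_cases h2 : (b : ℕ) < s
      · rw [dif_pos h2, lift_lt h2, (hc1 _ h2).2]
        have h3 := hq.2 ⟨a - s, hidx a h1⟩
        have h4 := hz.pos (hidx a h1)
        omega
      · rw [dif_neg h2, lift_ge (by omega) (by have := b.2; omega)]
        have h3 := hq.1.2.2 ⟨a - s, hidx a h1⟩ ⟨b - s, hidx b h2⟩
        simp only at h3
        omega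

end Pool.Agent.Lib_helper37.RG
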