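import Mathlib
import Pool.Agent.Lib_helper37.RG.Lower

/-!
# Exactly `k` copies for patterns `1 2 … s` followed by a wrapped pattern
-/

namespace Pool.Agent.Lib_helper37.RG

theorem strictMono_add_le {m : ℕ} {p : Fin m → ℕ} (hp : StrictMono p) (a : Fin m) :
    ∀ (k : ℕ) (h : (a : ℕ) + k < m), p a + k ≤ p ⟨a + k, h⟩ := by
  intro k
  induction k with
  | zero => intro h; simp
  | succ k ih =>
    intro h
    have h1 := ih (by omega)
    have h2 : p ⟨a + k, by omega⟩ < p ⟨a + (k + 1), h⟩ := hp (by simp only [Fin.lt_def]; omega)
    omega

theorem Wrap.lift_count {z F G : List ℕ} {d s k : ℕ} (W : Wrap z F G d) (hz : IsRGF z)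
    (hzne : z ≠ []) (hs : 1 ≤ s) (hk : 1 ≤ k) {w : List ℕ} (hw : IsRGF w)
    (hav : ∀ p, ¬ Cop (lift s z) w p) :
    {p | Cop (lift s z) (low s k ++ wrapS F G d s w) p}.ncard = k := by
  obtain ⟨p0, h0, hp0, hall⟩ := W.core s w
  have hm : 0 < z.length := List.length_pos_of_ne_nil hzne
  have hlen := lift_length s z
  have hL : (low s k).length = k + (s - 1) := low_length
  have hidx : ∀ a : Fin (lift s z).length, ¬ (a : ℕ) < s → (a : ℕ) - s < z.length := fun a ha => by
    have := a.2
    omega
  -- letters of the long word
  have hright : ∀ i, (low s k ++ wrapS F G d s w).getD (k + (s - 1) + i) 0 =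
      (wrapS F G d s w).getD i 0 := by
    intro i
    rw [getD_right (by omega)]
    congr 1
    omega
  have hlt1 : ∀ i, i < k → (low s k ++ wrapS F G d s w).getD i 0 = 1 := by
    intro i hi
    rw [getD_left (by omega), low_lt hi]
  have hlt2 : ∀ i, k ≤ i → i < k + (s - 1) →
      (low s k ++ wrapS F G d s w).getD i 0 = i - k + 2 := by
    intro i h1 h2
    rw [getD_left (by omega), low_ge h1 h2]
  let P : ℕ → Fin (lift s z).length → ℕ := fun i a =>
    if h : (a : ℕ) < s then (if (a : ℕ) = 0 then i else k + a - 1)
      else k + (s - 1) + p0 ⟨a - s, hidx a h⟩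
  have hPl : ∀ (i : ℕ) (a : Fin (lift s z).length), (a : ℕ) < s →
      P i a = if (a : ℕ) = 0 then i else k + a - 1 := fun i a h => dif_pos h
  have hPr : ∀ (i : ℕ) (a : Fin (lift s z).length) (h : ¬ (a : ℕ) < s),
      P i a = k + (s - 1) + p0 ⟨a - s, hidx a h⟩ := fun i a h => dif_neg h
  have hset : {p | Cop (lift s z) (low s k ++ wrapS F G d s w) p} =
      P '' (Set.Iio k) := by
    ext p
    constructor
    · rintro ⟨hmono, hlt, hord⟩
      have hlow : ∀ (t : ℕ) (ht : t < s),
          t + 1 ≤ (low s k ++ wrapS F G d s w).getD (p ⟨t, by omega⟩) 0 := by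
        intro t
        induction t with
        | zero =>
          intro ht
          rcases Nat.lt_or_ge (p ⟨0, by omega⟩) k with h1 | h1
          · rw [hlt1 _ h1]
          · rcases Nat.lt_or_ge (p ⟨0, by omega⟩) (k + (s - 1)) with h2 | h2
            · rw [hlt2 _ h1 h2]; omega
            · obtain ⟨i, hi⟩ := Nat.exists_eq_add_of_le h2
              have h3 : i < (wrapS F G d s w).length := by
                have := hlt ⟨0, by omega⟩
                rw [List.length_append, hL] at this
                omega
              have h4 := ((rgf_iff s _).1 (W.rgf s hw) i h3).1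
              rw [hi, hright]
              omega
        | succ t ih =>
          intro ht
          have h1 := ih (by omega)
          have h2 := (hord ⟨t, by omega⟩ ⟨t + 1, by omega⟩).2 (by
            rw [lift_lt (by simp; omega), lift_lt (by simp; omega)]
            simp)
          omega
      have hhigh : ∀ a : Fin (lift s z).length, ¬ (a : ℕ) < s →
          s < (low s k ++ wrapS F G d s w).getD (p a) 0 := by
        intro a ha
        have h1 := hlow (s - 1) (by omega)
        have h2 := (hord ⟨s - 1, by omega⟩ a).2 (by
          rw [lift_lt (by simp; omega), lift_ge (by omega) (by have := a.2; omega)]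
          have := hz.pos (hidx a ha)
          simp only
          omega)
        omega
      have hpos : ∀ a : Fin (lift s z).length, ¬ (a : ℕ) < s → k + (s - 1) ≤ p a := by
        intro a ha
        by_contra hcon
        push Not at hcon
        have h1 := hhigh a ha
        rcases Nat.lt_or_ge (p a) k with h2 | h2
        · rw [hlt1 _ h2] at h1; omega
        · rw [hlt2 _ h2 hcon] at h1; omega
      -- the upper part
      have hcop : CopT z (wrapS F G d s w) s
          (fun a : Fin z.length => p ⟨s + a, by have := a.2; omega⟩ - (k + (s - 1))) := by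
        have hval : ∀ a : Fin z.length, (wrapS F G d s w).getD
            (p ⟨s + a, by have := a.2; omega⟩ - (k + (s - 1))) 0 =
            (low s k ++ wrapS F G d s w).getD (p ⟨s + a, by have := a.2; omega⟩) 0 := by
          intro a
          rw [← hright]
          congr 1
          have := hpos ⟨s + a, by have := a.2; omega⟩ (by simp)
          omega
        refine ⟨⟨fun a b hab => ?_, fun a => ?_, fun a b => ?_⟩, fun a => ?_⟩
        · have hab' : (a : ℕ) < b := hab
          have h1 : p ⟨s + a, by have := a.2; omega⟩ < p ⟨s + b, by have := b.2; omega⟩ :=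
            hmono (by simp only [Fin.lt_def]; omega)
          have h2 := hpos ⟨s + a, by have := a.2; omega⟩ (by simp)
          dsimp only
          omega
        · have h1 := hlt ⟨s + a, by have := a.2; omega⟩
          rw [List.length_append, hL] at h1
          have h2 := hpos ⟨s + a, by have := a.2; omega⟩ (by simp)
          dsimp only
          omega
        · dsimp only
          rw [hval a, hval b, hord, lift_ge (by simp) (by simp), lift_ge (by simp) (by simp)]
          simp
        · dsimp only
          rw [hval a]
          exact hhigh _ (by simp)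
      have hq : (fun a : Fin z.length => p ⟨s + a, by have := a.2; omega⟩ - (k + (s - 1))) = p0 := by
        rcases hall _ hcop with h | h
        · exact h
        · exfalso
          have e : (fun a : Fin z.length => p ⟨s + a, by have := a.2; omega⟩ - (k + (s - 1))) =
              fun a : Fin z.length =>
                F.length + ((p ⟨s + a, by have := a.2; omega⟩ - (k + (s - 1))) - F.length) := by
            funext a
            have := (h a).1
            omega
          rw [e] at hcop
          obtain ⟨p', hp'⟩ := lift_copy hz hzne hw _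
            ((copT_mid z F G d s w _ (fun a => by have := h a; omega)).1 hcop)
          exact hav p' hp'
      have hps : ∀ a : Fin (lift s z).length, ∀ h : ¬ (a : ℕ) < s,
          p a = k + (s - 1) + p0 ⟨a - s, hidx a h⟩ := by
        intro a ha
        have h1 := congrFun hq ⟨a - s, hidx a ha⟩
        have h2 : (⟨s + ((⟨a - s, hidx a ha⟩ : Fin z.length) : ℕ), by
            have := a.2; simp only; omega⟩ : Fin (lift s z).length) = a := by
          ext
          simp only
          omega
        simp only at h1 h2
        rw [h2] at h1
        have h3 := hpos a ha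
        omega
      have hs1 : p ⟨s, by omega⟩ = k + (s - 1) := by
        rw [hps ⟨s, by omega⟩ (by simp), h0 _ (by simp)]
        rfl
      have hlast : ∀ a : Fin (lift s z).length, (a : ℕ) < s → p a + (s - a) ≤ k + (s - 1) := by
        intro a ha
        have h1 := strictMono_add_le hmono a (s - a) (by omega)
        have h2 : (⟨(a : ℕ) + (s - a), by omega⟩ : Fin (lift s z).length) = ⟨s, by omega⟩ := by
          ext
          simp only
          omega
        rw [h2, hs1] at h1
        exact h1
      have hmid : ∀ a : Fin (lift s z).length, (a : ℕ) < s → (a : ℕ) ≠ 0 → p a = k + a - 1 := by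
        intro a ha ha0
        have h1 := hlow a ha
        have h2 := hlast a ha
        have e : (⟨(a : ℕ), by omega⟩ : Fin (lift s z).length) = a := rfl
        rw [e] at h1
        rcases Nat.lt_or_ge (p a) k with h3 | h3
        · rw [hlt1 _ h3] at h1; omega
        · rw [hlt2 _ h3 (by omega)] at h1
          omega
      have hfirst : p ⟨0, by omega⟩ < k := by
        have h2 := hlast ⟨0, by omega⟩ (by simp; omega)
        simp only at h2
        omega
      refine ⟨p ⟨0, by omega⟩, hfirst, ?_⟩
      funext a
      by_cases ha : (a : ℕ) < s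
      · rw [hPl _ _ ha]
        split_ifs with ha0
        · congr 1
          ext
          simp [ha0]
        · exact (hmid a ha ha0).symm
      · rw [hPr _ _ ha, hps a ha]
    · rintro ⟨i, hi, rfl⟩
      have hi' : i < k := hi
      have hvl : ∀ a : Fin (lift s z).length, (a : ℕ) < s →
          (low s k ++ wrapS F G d s w).getD (P i a) 0 = a + 1 := by
        intro a ha
        rw [hPl _ _ ha]
        split_ifs with ha0
        · rw [hlt1 _ hi', ha0]
        · rw [hlt2 _ (by omega) (by omega)]
          omega
      have hvr : ∀ (a : Fin (lift s z).length) (h : ¬ (a : ℕ) < s),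
          (low s k ++ wrapS F G d s w).getD (P i a) 0 =
            (wrapS F G d s w).getD (p0 ⟨a - s, hidx a h⟩) 0 := by
        intro a ha
        rw [hPr _ _ ha, hright]
      refine ⟨?_, ?_, ?_⟩
      · intro a b hab
        have hab' : (a : ℕ) < b := hab
        by_cases h1 : (a : ℕ) < s
        · by_cases h2 : (b : ℕ) < s
          · rw [hPl _ _ h1, hPl _ _ h2]
            split_ifs <;> omega
          · rw [hPl _ _ h1, hPr _ _ h2]
            split_ifs <;> omega
        · rw [hPr _ _ h1, hPr _ _ (by omega)]
          have h3 : p0 ⟨a - s, hidx a h1⟩ < p0 ⟨b - s, hidx b (by omega)⟩ :=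
            hp0.1.1 (by simp only [Fin.lt_def]; omega)
          omega
      · intro a
        rw [List.length_append, hL]
        by_cases h1 : (a : ℕ) < s
        · rw [hPl _ _ h1]
          have h5 := hp0.1.2.1 ⟨0, hm⟩
          split_ifs <;> omega
        · rw [hPr _ _ h1]
          have := hp0.1.2.1 ⟨a - s, hidx a h1⟩
          omega
      · intro a b
        by_cases h1 : (a : ℕ) < s
        · by_cases h2 : (b : ℕ) < s
          · rw [hvl a h1, hvl b h2, lift_lt h1, lift_lt h2]
          · rw [hvl a h1, hvr b h2, lift_lt h1, lift_ge (by omega) (by have := b.2; omega)]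
            have h3 := hp0.2 ⟨b - s, hidx b h2⟩
            have h4 := hz.pos (hidx b h2)
            omega
        · by_cases h2 : (b : ℕ) < s
          · rw [hvr a h1, hvl b h2, lift_lt h2, lift_ge (by omega) (by have := a.2; omega)]
            have h3 := hp0.2 ⟨a - s, hidx a h1⟩
            have h4 := hz.pos (hidx a h1)
            omega
          · rw [hvr a h1, hvr b h2, lift_ge (by omega) (by have := a.2; omega),
              lift_ge (by omega) (by have := b.2; omega)]
            have h3 := hp0.1.2.2 ⟨a - s, hidx a h1⟩ ⟨b - s, hidx b h2⟩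
            simp only at h3
            omega
  have hinj : Set.InjOn P (Set.Iio k) := by
    intro i _ j _ hij
    have h1 := congrFun hij ⟨0, by omega⟩
    rw [hPl i _ (by simp; omega), hPl j _ (by simp; omega)] at h1
    simpa using h1
  rw [hset, hinj.ncard_image, ← Nat.card_coe_set_eq, Nat.card_eq_fintype_card]
  simp

theorem Wrap.lift_le {z F G : List ℕ} {d s k : ℕ} (W : Wrap z F G d) (hz : IsRGF z)
    (hzne : z ≠ []) (hs : 1 ≤ s) (hk : 1 ≤ k) (n : ℕ) :
    N (lift s z) n 0 ≤ N (lift s z) (n + (k + (s - 1) + (F.length + G.length))) k := by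
  refine N_le_of_inj (fun w => low s k ++ wrapS F G d s w) ?_ ?_
  · intro w hw
    obtain ⟨h1, h2, h3⟩ := mem_Rset.1 hw
    have hav : ∀ p, ¬ Cop (lift s z) w p := by
      intro p hp
      have h4 := (Set.ncard_eq_zero (finite_cop (lift s z) w)).1 h3
      have h5 : p ∈ {p | Cop (lift s z) w p} := hp
      rw [h4] at h5
      exact h5
    refine mem_Rset.2 ⟨?_, ?_, W.lift_count hz hzne hs hk h2 hav⟩
    · show (low s k ++ wrapS F G d s w).length = _
      rw [List.length_append, low_length, wrapS_length, h1]
      omega
    · show RGFFrom 0 (low s k ++ wrapS F G d s w)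
      have hrep : RGFFrom 0 (List.replicate k 1) ∧ mx 0 (List.replicate k 1) = 1 := by
        obtain ⟨k', rfl⟩ : ∃ k', k = k' + 1 := ⟨k - 1, by omega⟩
        have h5 : ∀ a ∈ List.replicate k' 1, 1 ≤ a ∧ a ≤ 1 := by
          intro a ha
          rw [List.eq_of_mem_replicate ha]
          exact ⟨le_rfl, le_rfl⟩
        rw [List.replicate_succ]
        refine ⟨⟨le_rfl, by omega, (rgf_of_le h5).mono (by simp)⟩, ?_⟩
        rw [mx_cons]
        exact le_antisymm (mx_le _ _ _ (by simp) (fun a ha => (h5 a ha).2))
          (le_trans (by simp) (le_mx _ _))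
      have hrange := range'_rgf 1 (s - 1)
      rw [rgf_append]
      unfold low
      rw [rgf_append, mx_append, hrep.2]
      refine ⟨⟨hrep.1, hrange.1⟩, ?_⟩
      rw [show (2 : ℕ) = 1 + 1 from rfl, hrange.2, show 1 + (s - 1) = s by omega]
      exact W.rgf s h2
  · intro w _ w' _ h
    exact wrapS_inj (List.append_cancel_left h)

end Pool.Agent.Lib_helper37.RG
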