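import Mathlib
import Pool.Agent.Lib_helper37.RG.Lift

/-!
# Every pattern is a lift of a pattern that can be wrapped
-/

namespace Pool.Agent.Lib_helper37.RG

theorem rgf_unshift {M : ℕ} {w : List ℕ} (h1 : ∀ a ∈ w, 1 ≤ a)
    (h : RGFFrom (M + 1) (w.map (· + 1))) : RGFFrom M w := by
  induction w generalizing M with
  | nil => trivial
  | cons a w ih =>
    obtain ⟨h2, h3, h4⟩ := h
    simp only at h3
    refine ⟨h1 a (by simp), by omega, ih (fun b hb => h1 b (by simp [hb])) ?_⟩
    have e : max (M + 1) (a + 1) = max M a + 1 := by omega
    simp only at h4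
    rw [e] at h4
    exact h4

theorem lift_zero (z : List ℕ) : lift 0 z = z := by
  simp [lift]

theorem lift_succ (s : ℕ) (z : List ℕ) : 1 :: (lift s z).map (· + 1) = lift (s + 1) z := by
  have h : (List.range' 1 s).map (· + 1) = List.range' 2 s := by
    apply List.ext_getElem
    · simp
    · intro i h1 h2
      simp
      omega
  unfold lift
  rw [List.map_append, List.map_map, h, List.range'_succ, List.cons_append]
  congr 2

theorem exists_decomp (m : ℕ) : ∀ v : List ℕ, v.length = m → IsRGF v → v ≠ [] →
    ∃ s z, v = lift s z ∧ IsRGF z ∧ z ≠ [] ∧ ∃ F G d, Wrap z F G d ∧ (s = 0 → z.length = 1 ∨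
      ∃ j, 1 ≤ j ∧ j < z.length ∧ z.getD j 0 ≤ z.getD 0 0) := by
  induction m with
  | zero =>
    intro v hv _ hne
    exact absurd (List.length_eq_zero_iff.1 hv) hne
  | succ m ih =>
    intro v hv hr hne
    by_cases h1 : ∃ j, 1 ≤ j ∧ j < v.length ∧ v.getD j 0 ≤ v.getD 0 0
    · obtain ⟨F, G, d, W⟩ := exists_wrap hr (by omega) h1
      exact ⟨0, v, (lift_zero v).symm, hr, hne, F, G, d, W, fun _ => Or.inr h1⟩
    · push Not at h1
      rcases Nat.eq_zero_or_pos m with hm | hm
      · -- a single letter
        subst hm
        have W : Wrap v v [] (mx 0 v) := wrap_indec hr (by omega) (fun t h2 h3 => by omega)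
        exact ⟨0, v, (lift_zero v).symm, hr, hne, _, _, _, W, fun _ => Or.inl (by omega)⟩
      · obtain ⟨b, v', rfl⟩ : ∃ b v', v = b :: v' := by
          cases v with
          | nil => exact absurd rfl hne
          | cons b v' => exact ⟨b, v', rfl⟩
        have hv' : v'.length = m := by simpa using hv
        obtain ⟨h2, h3, h4⟩ := hr
        have hb : b = 1 := by omega
        subst hb
        have h5 : ∀ a ∈ v', 2 ≤ a := by
          intro a ha
          obtain ⟨i, hi, rfl⟩ := List.mem_iff_getElem.1 ha
          have := h1 (i + 1) (by omega) (by simpa using hi)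
          simp only [List.getD_cons_succ, List.getD_cons_zero] at this
          rw [List.getD_eq_getElem _ _ hi] at this
          omega
        have h6 : v' = (v'.map (· - 1)).map (· + 1) := by
          rw [List.map_map]
          conv_lhs => rw [← List.map_id v']
          refine List.map_congr_left ?_
          intro a ha
          have := h5 a ha
          simp only [id_eq, Function.comp_apply]
          omega
        have h7 : IsRGF (v'.map (· - 1)) := by
          refine rgf_unshift (M := 0) ?_ ?_
          · intro a ha
            obtain ⟨c, hc, rfl⟩ := List.mem_map.1 ha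
            have := h5 c hc
            omega
          · rw [← h6]
            exact h4
        obtain ⟨s, z, h8, h9, h10, F, G, d, W, _⟩ := ih (v'.map (· - 1)) (by simpa using hv') h7 (by
          intro h
          have := congrArg List.length h
          simp at this
          rw [this] at hv'
          simp at hv'
          omega)
        refine ⟨s + 1, z, ?_, h9, h10, F, G, d, W, fun h => absurd h (by omega)⟩
        rw [← lift_succ, ← h8, ← h6]

/-- Avoiders are at most as many as the somewhat longer words with exactly `k` copies. -/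
theorem lower_bound {v : List ℕ} (hv : IsRGF v) (h2 : 2 ≤ v.length) (k : ℕ) :
    ∃ c, ∀ n, N v n 0 ≤ N v (n + c) k := by
  rcases Nat.eq_zero_or_pos k with hk | hk
  · subst hk
    exact ⟨0, fun n => le_rfl⟩
  · obtain ⟨s, z, rfl, h9, h10, F, G, d, W, hs⟩ := exists_decomp v.length v rfl hv (by
      rintro rfl
      simp at h2)
    rcases Nat.eq_zero_or_pos s with hs0 | hs0
    · subst hs0
      rw [lift_zero]
      exact ⟨_, fun n => W.iter h10 n k⟩
    · exact ⟨_, fun n => W.lift_le h9 h10 hs0 hk n⟩

end Pool.Agent.Lib_helper37.RG
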