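import Mathlib
import Pool.Agent.Lib_helper37.RG.Decomp

/-!
# Erasing a letter that lies in a copy
-/

namespace Pool.Agent.Lib_helper37.RG

theorem getD_erase (w : List ℕ) (i j : ℕ) :
    (w.eraseIdx i).getD j 0 = if j < i then w.getD j 0 else w.getD (j + 1) 0 := by
  rw [List.getD_eq_getElem?_getD, List.getElem?_eraseIdx]
  split_ifs <;> rw [List.getD_eq_getElem?_getD]

theorem erase_rgf {w : List ℕ} (h : IsRGF w) {i : ℕ} (hi : i < w.length)
    (hc : (∃ i0, i0 < i ∧ w.getD i 0 ≤ w.getD i0 0) ∨
      ∀ j, j < w.length → w.getD j 0 ≤ w.getD i 0) :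
    IsRGF (w.eraseIdx i) := by
  refine (rgf_iff 0 _).2 ?_
  intro j hj
  have hlen : (w.eraseIdx i).length = w.length - 1 := List.length_eraseIdx_of_lt hi
  obtain ⟨j', hj'⟩ : ∃ j', j' = if j < i then j else j + 1 := ⟨_, rfl⟩
  have e : (w.eraseIdx i).getD j 0 = w.getD j' 0 := by
    rw [getD_erase, hj']
    split_ifs <;> rfl
  have hj'l : j' < w.length := by
    rw [hj']
    split_ifs <;> omega
  rw [e]
  obtain ⟨h1, h2⟩ := (rgf_iff 0 w).1 h j' hj'l
  refine ⟨h1, ?_⟩
  have back : ∀ k, k < j' → k ≠ i → ∃ k', k' < j ∧ (w.eraseIdx i).getD k' 0 = w.getD k 0 := by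
    intro k hk hki
    refine ⟨if k < i then k else k - 1, ?_, ?_⟩
    · by_cases h4 : j < i
      · rw [if_pos h4] at hj'
        rw [if_pos (by omega)]
        omega
      · rw [if_neg h4] at hj'
        split_ifs <;> omega
    · rw [getD_erase]
      by_cases h3 : k < i
      · rw [if_pos h3, if_pos h3]
      · rw [if_neg h3, if_neg (by omega)]
        congr 1
        omega
  have hj'i : j' ≠ i := by
    rw [hj']
    split_ifs <;> omega
  rcases h2 with h2 | ⟨k, hk, h2⟩
  · exact Or.inl h2
  · by_cases hki : k = i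
    · subst hki
      rcases hc with ⟨i0, hi0, h3⟩ | h3
      · right
        obtain ⟨k', hk', h4⟩ := back i0 (by omega) (by omega)
        exact ⟨k', hk', by omega⟩
      · have h4 := h3 j' hj'l
        rcases Nat.lt_or_ge 1 (w.getD k 0) with h5 | h5
        · obtain ⟨i0, hi0, h6⟩ := h.earlier k hi (w.getD k 0 - 1) (by omega) (by omega)
          obtain ⟨k', hk', h7⟩ := back i0 (by omega) (by omega)
          right
          exact ⟨k', hk', by omega⟩
        · left
          omega
    · right
      obtain ⟨k', hk', h4⟩ := back k hk hki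
      exact ⟨k', hk', by omega⟩

theorem erase_count {v w : List ℕ} {i : ℕ} (hi : i < w.length) {p : Fin v.length → ℕ}
    (hp : Cop v w p) (hpi : ∃ a, p a = i) :
    {q | Cop v (w.eraseIdx i) q}.ncard < {q | Cop v w q}.ncard := by
  obtain ⟨f, hf⟩ : ∃ f : ℕ → ℕ, ∀ x, f x = if x < i then x else x + 1 := ⟨_, fun _ => rfl⟩
  have hmono : StrictMono f := by
    intro a b hab
    rw [hf, hf]
    split_ifs <;> omega
  have hinj : Function.Injective (fun q : Fin v.length → ℕ => fun a => f (q a)) := by
    intro q q' h
    funext a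
    exact hmono.injective (congrFun h a)
  rw [← Set.ncard_image_of_injective _ hinj]
  refine Set.ncard_lt_ncard ?_ (finite_cop v w)
  refine (Set.ssubset_iff_of_subset ?_).2 ⟨p, hp, ?_⟩
  · rintro _ ⟨q, hq, rfl⟩
    have hlen : (w.eraseIdx i).length = w.length - 1 := List.length_eraseIdx_of_lt hi
    have hg : ∀ x, w.getD (f x) 0 = (w.eraseIdx i).getD x 0 := by
      intro x
      rw [getD_erase, hf]
      split_ifs <;> rfl
    refine ⟨fun a b hab => hmono (hq.1 hab), fun a => ?_, fun a b => ?_⟩
    · have h1 := hq.2.1 a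
      show f (q a) < w.length
      rw [hf]
      split_ifs <;> omega
    · show w.getD (f (q a)) 0 < w.getD (f (q b)) 0 ↔ _
      rw [hg, hg]
      exact hq.2.2 a b
  · rintro ⟨q, _, hq⟩
    obtain ⟨a, ha⟩ := hpi
    have h1 : f (q a) = p a := congrFun hq a
    rw [ha, hf] at h1
    split_ifs at h1 <;> omega

theorem exists_erase {v w : List ℕ} (hv : IsRGF v) (hne : v ≠ []) (hw : IsRGF w)
    (h : {q | Cop v w q}.Nonempty) :
    ∃ i, i < w.length ∧ IsRGF (w.eraseIdx i) ∧
      {q | Cop v (w.eraseIdx i) q}.ncard < {q | Cop v w q}.ncard := by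
  obtain ⟨p, hp⟩ := h
  by_cases hrep : ∃ a b : Fin v.length, a < b ∧ v.getD a 0 = v.getD b 0
  · obtain ⟨a, b, hab, he⟩ := hrep
    exact ⟨p b, hp.2.1 b, erase_rgf hw (hp.2.1 b)
      (Or.inl ⟨p a, hp.1 hab, (hp.le_iff b a).2 (le_of_eq he.symm)⟩),
      erase_count (hp.2.1 b) hp ⟨b, rfl⟩⟩
  · push Not at hrep
    have hid : ∀ i, i < v.length → v.getD i 0 = i + 1 := by
      intro i
      induction i using Nat.strong_induction_on with
      | _ i ih =>
        intro hi
        have h1 := hv.le_succ i hi
        have h2 := hv.pos hi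
        by_contra hcon
        have h3 := ih (v.getD i 0 - 1) (by omega) (by omega)
        refine hrep ⟨v.getD i 0 - 1, by omega⟩ ⟨i, hi⟩ ?_ ?_
        · show v.getD i 0 - 1 < i
          omega
        · show v.getD (v.getD i 0 - 1) 0 = v.getD i 0
          omega
    have hm : 0 < v.length := List.length_pos_of_ne_nil hne
    have hwpos : 0 < w.length := by
      have := hp.2.1 ⟨0, hm⟩
      omega
    obtain ⟨i, hi, hmax⟩ : ∃ i, i < w.length ∧ ∀ j, j < w.length → w.getD j 0 ≤ w.getD i 0 := by
      obtain ⟨i, hi, h1⟩ := Finset.exists_max_image (Finset.range w.length)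
        (fun j => w.getD j 0) ⟨0, Finset.mem_range.2 hwpos⟩
      exact ⟨i, Finset.mem_range.1 hi, fun j hj => h1 j (Finset.mem_range.2 hj)⟩
    have hlow : ∀ a (ha : a < v.length), a + 1 ≤ w.getD (p ⟨a, ha⟩) 0 := by
      intro a
      induction a with
      | zero =>
        intro ha
        exact hw.pos (hp.2.1 _)
      | succ a ih =>
        intro ha
        have h1 := ih (by omega)
        have h2 : w.getD (p ⟨a, by omega⟩) 0 < w.getD (p ⟨a + 1, ha⟩) 0 := by
          refine (hp.2.2 _ _).2 ?_
          show v.getD a 0 < v.getD (a + 1) 0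
          rw [hid a (by omega), hid (a + 1) ha]
          omega
        omega
    have hi2 : v.length - 1 < w.getD i 0 := by
      have h1 := hlow (v.length - 1) (by omega)
      have h2 := hmax (p ⟨v.length - 1, by omega⟩) (hp.2.1 _)
      omega
    obtain ⟨c, hc1, hc2⟩ := hw.chain (v.length - 1) i hi hi2
    have hcop : Cop v w (fun a => if (a : ℕ) < v.length - 1 then c a else i) := by
      refine ⟨?_, ?_, ?_⟩
      · intro a b hab
        have hab' : (a : ℕ) < b := hab
        have hb := b.2
        dsimp only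
        rw [if_pos (by omega)]
        by_cases h1 : (b : ℕ) < v.length - 1
        · rw [if_pos h1]
          exact hc2 _ _ hab' h1
        · rw [if_neg h1]
          exact (hc1 a (by omega)).1
      · intro a
        dsimp only
        by_cases h1 : (a : ℕ) < v.length - 1
        · rw [if_pos h1]
          have := (hc1 a h1).1
          omega
        · rw [if_neg h1]
          exact hi
      · intro a b
        have ha := a.2
        have hb := b.2
        dsimp only
        rw [hid a a.2, hid b b.2]
        by_cases h1 : (a : ℕ) < v.length - 1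
        · rw [if_pos h1, (hc1 a h1).2]
          by_cases h2 : (b : ℕ) < v.length - 1
          · rw [if_pos h2, (hc1 b h2).2]
          · rw [if_neg h2]
            omega
        · rw [if_neg h1]
          by_cases h2 : (b : ℕ) < v.length - 1
          · rw [if_pos h2, (hc1 b h2).2]
            omega
          · rw [if_neg h2]
            omega
    refine ⟨i, hi, erase_rgf hw hi (Or.inr hmax), erase_count hi hcop ⟨⟨v.length - 1, by omega⟩, ?_⟩⟩
    simp

end Pool.Agent.Lib_helper37.RG
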