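import Mathlib
import Pool.Agent.Lib_helper37.RG.Erase

/-!
# Words with few copies compared with avoiders
-/

namespace Pool.Agent.Lib_helper37.RG

/-- the words with at most `j` copies -/
def Lset (v : List ℕ) (n j : ℕ) : Set (List ℕ) :=
  {w | w.length = n ∧ IsRGF w ∧ {p | Cop v w p}.ncard ≤ j}

/-- their number -/
noncomputable def L (v : List ℕ) (n j : ℕ) : ℕ := (Lset v n j).ncard

theorem finite_Lset (v : List ℕ) (n j : ℕ) : (Lset v n j).Finite :=
  (finite_rgf n).subset (fun _ hw => ⟨hw.1, hw.2.1⟩)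

theorem N_le_L (v : List ℕ) (n j : ℕ) : N v n j ≤ L v n j := by
  refine Set.ncard_le_ncard ?_ (finite_Lset v n j)
  intro w hw
  obtain ⟨h1, h2, h3⟩ := mem_Rset.1 hw
  exact ⟨h1, h2, h3.le⟩

theorem L_zero (v : List ℕ) (n : ℕ) : L v n 0 = N v n 0 := by
  unfold L N
  congr 1
  ext w
  rw [mem_Rset]
  constructor
  · rintro ⟨h1, h2, h3⟩
    exact ⟨h1, h2, by omega⟩
  · rintro ⟨h1, h2, h3⟩
    exact ⟨h1, h2, h3.le⟩

theorem L_step {v : List ℕ} (hv : IsRGF v) (hne : v ≠ []) (n j : ℕ) :
    L v (n + 1) (j + 1) ≤ N v (n + 1) 0 + (n + 2) ^ 2 * L v n j := by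
  obtain ⟨f, hf⟩ : ∃ f : (ℕ × ℕ) × List ℕ → List ℕ, ∀ x, f x = x.2.insertIdx x.1.1 x.1.2 :=
    ⟨_, fun _ => rfl⟩
  obtain ⟨P, hP⟩ : ∃ P : Finset (ℕ × ℕ), P = Finset.range (n + 2) ×ˢ Finset.range (n + 2) :=
    ⟨_, rfl⟩
  have hfin : ((P : Set (ℕ × ℕ)) ×ˢ Lset v n j).Finite := P.finite_toSet.prod (finite_Lset v n j)
  have hsub : Lset v (n + 1) (j + 1) ⊆ Rset v (n + 1) 0 ∪ f '' ((P : Set (ℕ × ℕ)) ×ˢ Lset v n j) := by
    rintro w ⟨h1, h2, h3⟩
    by_cases h0 : {p | Cop v w p} = ∅
    · left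
      exact mem_Rset.2 ⟨h1, h2, by rw [h0, Set.ncard_empty]⟩
    · right
      obtain ⟨i, hi, h4, h5⟩ := exists_erase hv hne h2 (Set.nonempty_iff_ne_empty.2 h0)
      have h6 := h2.le_succ i hi
      refine ⟨((i, w.getD i 0), w.eraseIdx i), ⟨?_, ?_, h4, Nat.le_of_lt_succ (h5.trans_le h3)⟩, ?_⟩
      · rw [hP]
        simp only [Finset.coe_product, Finset.coe_range, Set.mem_prod, Set.mem_Iio]
        omega
      · show (w.eraseIdx i).length = n
        rw [List.length_eraseIdx_of_lt hi]
        omega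
      · rw [hf]
        show (w.eraseIdx i).insertIdx i (w.getD i 0) = w
        rw [List.getD_eq_getElem _ _ hi]
        exact List.insertIdx_eraseIdx_getElem hi
  have h1 : L v (n + 1) (j + 1) ≤ (Rset v (n + 1) 0).ncard +
      (f '' ((P : Set (ℕ × ℕ)) ×ˢ Lset v n j)).ncard :=
    (Set.ncard_le_ncard hsub ((finite_Rset v (n + 1) 0).union (hfin.image f))).trans
      (Set.ncard_union_le _ _)
  have h2 := Set.ncard_image_le (f := f) hfin
  have h3 : ((P : Set (ℕ × ℕ)) ×ˢ Lset v n j).ncard = (n + 2) ^ 2 * L v n j := by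
    rw [Set.ncard_prod, Set.ncard_coe_finset, hP, Finset.card_product, Finset.card_range]
    unfold L
    ring
  rw [h3] at h2
  exact h1.trans (Nat.add_le_add_left h2 _)

/-- prepending a letter keeps avoiders -/
theorem N_mono {v : List ℕ} (h2 : 2 ≤ v.length) (n : ℕ) :
    N v n 0 ≤ N v (n + 1) 0 := by
  have empty_of : ∀ w, {p | Cop v w p}.ncard = 0 → ∀ p, ¬ Cop v w p := by
    intro w h p hp
    rw [Set.ncard_eq_zero (finite_cop v w)] at h
    exact Set.notMem_empty p (h ▸ hp)
  have of_empty : ∀ w, (∀ p, ¬ Cop v w p) → {p | Cop v w p}.ncard = 0 := by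
    intro w h
    rw [Set.ncard_eq_zero (finite_cop v w)]
    exact Set.eq_empty_of_forall_notMem h
  by_cases h11 : v.getD 1 0 = v.getD 0 0
  · refine N_le_of_inj (fun w => 1 :: w.map (· + 1)) ?_ ?_
    · intro w hw
      obtain ⟨h3, h4, h5⟩ := mem_Rset.1 hw
      refine mem_Rset.2 ⟨by simp [h3], ⟨le_rfl, by omega, ?_⟩, ?_⟩
      · have := rgf_shift 1 h4
        exact this
      · refine of_empty _ (fun p hp => ?_)
        have hpos : ∀ a, 1 ≤ p a := by
          intro a
          have h6 : 1 ≤ p ⟨0, by omega⟩ := by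
            by_contra hcon
            have h7 : p ⟨0, by omega⟩ = 0 := by omega
            have h8 := (hp.eq_iff ⟨1, by omega⟩ ⟨0, by omega⟩).2 h11
            rw [h7] at h8
            have h9 : p ⟨0, by omega⟩ < p ⟨1, by omega⟩ := hp.1 (by simp [Fin.lt_def])
            have h10 := hp.2.1 ⟨1, by omega⟩
            obtain ⟨q, hq⟩ : ∃ q, p ⟨1, by omega⟩ = q + 1 := ⟨p ⟨1, by omega⟩ - 1, by omega⟩
            rw [hq] at h8 h10
            simp only [List.getD_cons_succ, List.getD_cons_zero] at h8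
            have h11 : q < w.length := by simpa using h10
            rw [getD_map' (· + 1) h11] at h8
            have := h4.pos h11
            omega
          exact h6.trans (hp.1.monotone (Nat.zero_le _))
        have hlt : ∀ a, p a - 1 < w.length := by
          intro a
          have h6 := hp.2.1 a
          have h7 := hpos a
          simp only [List.length_cons, List.length_map] at h6
          omega
        refine empty_of w h5 (fun a => p a - 1) ⟨?_, hlt, ?_⟩
        · intro a b hab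
          have h6 := hp.1 hab
          have h7 := hpos a
          show p a - 1 < p b - 1
          omega
        · intro a b
          have h6 : ∀ a, (1 :: w.map (· + 1)).getD (p a) 0 = w.getD (p a - 1) 0 + 1 := by
            intro a
            obtain ⟨q, hq⟩ : ∃ q, p a = q + 1 := ⟨p a - 1, by have := hpos a; omega⟩
            have h7 := hlt a
            rw [hq] at h7 ⊢
            simp only [List.getD_cons_succ, Nat.add_sub_cancel] at h7 ⊢
            exact getD_map' (· + 1) h7
          have h7 := hp.2.2 a b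
          rw [h6, h6] at h7
          show w.getD (p a - 1) 0 < w.getD (p b - 1) 0 ↔ _
          omega
    · intro w _ w' _ h
      simp only [List.cons.injEq, true_and] at h
      exact List.map_injective_iff.2 (fun a b h => by simpa using h) h
  · refine N_le_of_inj (fun w => 1 :: w) ?_ ?_
    · intro w hw
      obtain ⟨h3, h4, h5⟩ := mem_Rset.1 hw
      refine mem_Rset.2 ⟨by simp [h3], ⟨le_rfl, by omega, RGFFrom.mono h4 (Nat.zero_le _)⟩, ?_⟩
      refine of_empty _ (fun p hp => ?_)
      -- the first letter of the pattern can be moved to position `1`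
      have h9 : ∀ a : Fin v.length, 1 ≤ (a : ℕ) → 1 ≤ p a := by
        intro a ha
        have h10 : p ⟨0, by omega⟩ < p a := hp.1 (show ⟨0, _⟩ < a from ha)
        omega
      have hw0 : 0 < w.length := by
        have h6 := hp.2.1 ⟨1, by omega⟩
        have h7 := h9 ⟨1, by omega⟩ le_rfl
        simp only [List.length_cons] at h6
        omega
      have hw1 : w.getD 0 0 = 1 := by
        have h6 := h4.le_succ 0 hw0
        have h7 := h4.pos hw0
        omega
      have h10 : 2 ≤ p ⟨1, by omega⟩ ∨ 1 ≤ p ⟨0, by omega⟩ := by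
        by_contra hcon
        push Not at hcon
        have h7 := h9 ⟨1, by omega⟩ le_rfl
        have h8 : p ⟨1, by omega⟩ = 1 := by omega
        have h8' : p ⟨0, by omega⟩ = 0 := by omega
        refine h11 ((hp.eq_iff ⟨1, by omega⟩ ⟨0, by omega⟩).1 ?_)
        rw [h8, h8']
        simp only [List.getD_cons_succ, List.getD_cons_zero]
        exact hw1
      have h12 : ∀ a : Fin v.length, 1 ≤ (a : ℕ) → 2 ≤ p a := by
        intro a ha
        have h13 : p ⟨1, by omega⟩ ≤ p a := hp.1.monotone (show ⟨1, _⟩ ≤ a from ha)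
        rcases h10 with h14 | h14
        · omega
        · have h15 : p ⟨0, by omega⟩ < p a := hp.1 (show ⟨0, _⟩ < a from ha)
          omega
      have h16 : ∀ a, w.getD (p a - 1) 0 = (1 :: w).getD (p a) 0 := by
        intro a
        rcases Nat.eq_zero_or_pos (p a) with h17 | h17
        · rw [h17]
          simpa using hw1
        · obtain ⟨q, hq⟩ : ∃ q, p a = q + 1 := ⟨p a - 1, by omega⟩
          rw [hq]
          simp
      refine empty_of w h5 (fun a => p a - 1) ⟨?_, ?_, ?_⟩
      · intro a b hab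
        have hab' : (a : ℕ) < b := hab
        have h17 := hp.1 hab
        have h18 := h12 b (by omega)
        show p a - 1 < p b - 1
        omega
      · intro a
        have h17 := hp.2.1 a
        simp only [List.length_cons] at h17
        show p a - 1 < w.length
        omega
      · intro a b
        show w.getD (p a - 1) 0 < w.getD (p b - 1) 0 ↔ _
        rw [h16, h16]
        exact hp.2.2 a b
    · intro w _ w' _ h
      exact (List.cons.inj h).2

theorem L_le {v : List ℕ} (hv : IsRGF v) (h2 : 2 ≤ v.length) (j : ℕ) :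
    ∀ n, L v n j ≤ (n + 2) ^ (3 * j) * N v n 0 := by
  have hne : v ≠ [] := by
    rintro rfl
    simp at h2
  induction j with
  | zero =>
    intro n
    rw [L_zero]
    simp
  | succ j ih =>
    intro n
    cases n with
    | zero =>
      have h3 : Lset v 0 (j + 1) ⊆ Rset v 0 0 := by
        rintro w ⟨h4, h5, _⟩
        refine mem_Rset.2 ⟨h4, h5, ?_⟩
        rw [Set.ncard_eq_zero (finite_cop v w)]
        refine Set.eq_empty_of_forall_notMem (fun p hp => ?_)
        have h6 := hp.2.1 ⟨0, by omega⟩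
        omega
      have h4 : L v 0 (j + 1) ≤ N v 0 0 := Set.ncard_le_ncard h3 (finite_Rset v 0 0)
      have h5 : 1 ≤ (0 + 2) ^ (3 * (j + 1)) := Nat.one_le_pow _ _ (by omega)
      calc L v 0 (j + 1) ≤ 1 * N v 0 0 := by omega
        _ ≤ _ := Nat.mul_le_mul_right _ h5
    | succ n =>
      have h3 := L_step hv hne n j
      have h4 := ih n
      have h5 := N_mono h2 n
      have h6 : (n + 2) ^ 2 * L v n j ≤ (n + 2) ^ 2 * ((n + 2) ^ (3 * j) * N v (n + 1) 0) :=
        Nat.mul_le_mul_left _ (h4.trans (Nat.mul_le_mul_left _ h5))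
      have h7 : (n + 2) ^ (3 * j + 2) + 1 ≤ (n + 1 + 2) ^ (3 * (j + 1)) := by
        have h8 : (n + 2) ^ (3 * j + 2) + 1 ≤ (n + 3) ^ (3 * j + 2) := by
          have : (n + 2) ^ (3 * j + 2) < (n + 3) ^ (3 * j + 2) :=
            Nat.pow_lt_pow_left (by omega) (by omega)
          omega
        exact h8.trans (Nat.pow_le_pow_right (by omega) (by omega))
      calc L v (n + 1) (j + 1) ≤ N v (n + 1) 0 + (n + 2) ^ 2 * L v n j := h3
        _ ≤ N v (n + 1) 0 + (n + 2) ^ 2 * ((n + 2) ^ (3 * j) * N v (n + 1) 0) := by omega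
        _ = ((n + 2) ^ (3 * j + 2) + 1) * N v (n + 1) 0 := by ring
        _ ≤ _ := Nat.mul_le_mul_right _ h7

theorem N_succ_le {v : List ℕ} (n : ℕ) : N v (n + 1) 0 ≤ (n + 2) * N v n 0 := by
  obtain ⟨f, hf⟩ : ∃ f : ℕ × List ℕ → List ℕ, ∀ x, f x = x.2 ++ [x.1] := ⟨_, fun _ => rfl⟩
  have hfin : (((Finset.range (n + 2) : Finset ℕ) : Set ℕ) ×ˢ Rset v n 0).Finite :=
    (Finset.range (n + 2)).finite_toSet.prod (finite_Rset v n 0)
  have hsub : Rset v (n + 1) 0 ⊆ f '' (((Finset.range (n + 2) : Finset ℕ) : Set ℕ) ×ˢ Rset v n 0) := by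
    intro w hw
    obtain ⟨h1, h2, h3⟩ := mem_Rset.1 hw
    rcases List.eq_nil_or_concat w with h4 | ⟨u, a, h4⟩
    · rw [h4] at h1
      simp at h1
    · rw [List.concat_eq_append] at h4
      rw [h4] at h1 h2 h3 ⊢
      have h5 : u.length = n := by simpa using h1
      have h6 := ((rgf_append 0 u [a]).1 h2).1
      have h7 := h2.le_succ n (by simp [h5])
      have h8 : (u ++ [a]).getD n 0 = a := by
        rw [List.getD_eq_getElem?_getD, ← h5]
        simp
      rw [h8] at h7
      refine ⟨(a, u), ⟨?_, mem_Rset.2 ⟨h5, h6, ?_⟩⟩, ?_⟩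
      · simp only [Finset.coe_range, Set.mem_Iio]
        omega
      · rw [Set.ncard_eq_zero (finite_cop v _)] at h3 ⊢
        refine Set.eq_empty_of_forall_notMem (fun p hp => ?_)
        refine Set.notMem_empty p (h3 ▸ ?_)
        refine ⟨hp.1, fun b => ?_, fun b c => ?_⟩
        · have h9 : p b < u.length := hp.2.1 b
          rw [List.length_append]
          omega
        · rw [getD_left (hp.2.1 b), getD_left (hp.2.1 c)]
          exact hp.2.2 b c
      · rw [hf]
  have h1 : N v (n + 1) 0 ≤ _ := Set.ncard_le_ncard hsub (hfin.image f)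
  refine h1.trans ((Set.ncard_image_le hfin).trans ?_)
  rw [Set.ncard_prod, Set.ncard_coe_finset, Finset.card_range]
  exact le_rfl

theorem N_add_le {v : List ℕ} (n c : ℕ) : N v (n + c) 0 ≤ (n + c + 1) ^ c * N v n 0 := by
  induction c with
  | zero => simp
  | succ c ih =>
    have h1 := N_succ_le (v := v) (n + c)
    calc N v (n + (c + 1)) 0 ≤ (n + c + 2) * N v (n + c) 0 := h1
      _ ≤ (n + c + 2) * ((n + c + 1) ^ c * N v n 0) := Nat.mul_le_mul_left _ ih
      _ ≤ (n + c + 2) * ((n + c + 2) ^ c * N v n 0) :=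
        Nat.mul_le_mul_left _ (Nat.mul_le_mul_right _ (Nat.pow_le_pow_left (by omega) _))
      _ = (n + (c + 1) + 1) ^ (c + 1) * N v n 0 := by ring

/-- **The counts for different numbers of copies differ by at most a power of `n`.** -/
theorem main {v : List ℕ} (hv : IsRGF v) (h2 : 2 ≤ v.length) (j k : ℕ) :
    ∃ C, ∀ n, C ≤ n → N v n j ≤ n ^ C * N v n k := by
  obtain ⟨c, hc⟩ := lower_bound hv h2 k
  refine ⟨2 * (3 * j + c) + 2, fun n hn => ?_⟩
  have h3 : N v n j ≤ (n + 2) ^ (3 * j) * N v n 0 := (N_le_L v n j).trans (L_le hv h2 j n)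
  have h4 : N v n 0 ≤ (n + 1) ^ c * N v (n - c) 0 := by
    have := N_add_le (v := v) (n - c) c
    rwa [Nat.sub_add_cancel (by omega)] at this
  have h5 : N v (n - c) 0 ≤ N v n k := by
    have := hc (n - c)
    rwa [Nat.sub_add_cancel (by omega)] at this
  have h6 : n + 2 ≤ n ^ 2 := by nlinarith
  calc N v n j ≤ (n + 2) ^ (3 * j) * N v n 0 := h3
    _ ≤ (n + 2) ^ (3 * j) * ((n + 1) ^ c * N v (n - c) 0) := Nat.mul_le_mul_left _ h4
    _ ≤ (n + 2) ^ (3 * j) * ((n + 1) ^ c * N v n k) :=
      Nat.mul_le_mul_left _ (Nat.mul_le_mul_left _ h5)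
    _ ≤ (n + 2) ^ (3 * j) * ((n + 2) ^ c * N v n k) :=
      Nat.mul_le_mul_left _ (Nat.mul_le_mul_right _ (Nat.pow_le_pow_left (by omega) _))
    _ = (n + 2) ^ (3 * j + c) * N v n k := by ring
    _ ≤ (n ^ 2) ^ (3 * j + c) * N v n k := Nat.mul_le_mul_right _ (Nat.pow_le_pow_left h6 _)
    _ = n ^ (2 * (3 * j + c)) * N v n k := by rw [← pow_mul]
    _ ≤ n ^ (2 * (3 * j + c) + 2) * N v n k :=
      Nat.mul_le_mul_right _ (Nat.pow_le_pow_right (by omega) (by omega))

end Pool.Agent.Lib_helper37.RG
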