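import Mathlib
import Pool.Agent.Lib_helper37.RG.Upper

/-!
# Patterns with at most one letter, and the comparison of two patterns
-/

namespace Pool.Agent.Lib_helper37.RG

theorem cop_nil (w : List ℕ) : {p | Cop [] w p}.ncard = 1 := by
  have h : {p | Cop [] w p} = {fun a => a.elim0} := by
    ext p
    constructor
    · intro _
      funext a
      exact a.elim0
    · intro _
      exact ⟨fun a => a.elim0, fun a => a.elim0, fun a => a.elim0⟩
  rw [h, Set.ncard_singleton]

theorem cop_one (w : List ℕ) : {p | Cop [1] w p}.ncard = w.length := by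
  have h : {p | Cop [1] w p} =
      (fun (x : ℕ) (_ : Fin ([1] : List ℕ).length) => x) '' ((Finset.range w.length : Finset ℕ) : Set ℕ) := by
    ext p
    constructor
    · intro hp
      refine ⟨p ⟨0, by simp⟩, ?_, ?_⟩
      · simp only [Finset.coe_range, Set.mem_Iio]
        exact hp.2.1 _
      · funext a
        have : a = ⟨0, by simp⟩ := by
          ext
          have := a.2
          simp only [List.length_cons, List.length_nil] at this
          show (a : ℕ) = 0
          omega
        rw [this]
    · rintro ⟨x, hx, rfl⟩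
      simp only [Finset.coe_range, Set.mem_Iio] at hx
      have hab : ∀ a b : Fin ([1] : List ℕ).length, a = b := by
        intro a b
        ext
        have h1 := a.2
        have h2 := b.2
        simp only [List.length_cons, List.length_nil] at h1 h2
        omega
      refine ⟨fun a b h => absurd (hab a b) (ne_of_lt h), fun _ => hx, fun a b => ?_⟩
      rw [hab a b]
      simp
  rw [h, Set.ncard_image_of_injective, Set.ncard_coe_finset, Finset.card_range]
  intro x y hxy
  exact congrFun hxy ⟨0, by simp⟩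

theorem N_nil_zero {v : List ℕ} (hv : v ≠ []) : 1 ≤ N v 0 0 := by
  have h : ([] : List ℕ) ∈ Rset v 0 0 := by
    refine mem_Rset.2 ⟨rfl, trivial, ?_⟩
    rw [Set.ncard_eq_zero (finite_cop v [])]
    refine Set.eq_empty_of_forall_notMem (fun p hp => ?_)
    have h6 := hp.2.1 ⟨0, List.length_pos_of_ne_nil hv⟩
    simp at h6
  exact (Set.ncard_pos (finite_Rset v 0 0)).2 ⟨_, h⟩

theorem N_mono' {v : List ℕ} (h2 : 2 ≤ v.length) (n : ℕ) : 1 ≤ N v n 0 := by
  induction n with
  | zero =>
    refine N_nil_zero ?_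
    rintro rfl
    simp at h2
  | succ n ih => exact ih.trans (N_mono h2 n)

theorem pos_of_large {v : List ℕ} (hv : IsRGF v) (h2 : 2 ≤ v.length) (k : ℕ) :
    ∃ c, ∀ n, c ≤ n → 1 ≤ N v n k := by
  obtain ⟨c, hc⟩ := lower_bound hv h2 k
  refine ⟨c, fun n hn => ?_⟩
  have h3 := (N_mono' h2 (n - c)).trans (hc (n - c))
  rwa [Nat.sub_add_cancel hn] at h3

theorem N_nil_eq {n k : ℕ} (hk : k ≠ 1) : N [] n k = 0 := by
  unfold N
  rw [Set.ncard_eq_zero (finite_Rset [] n k)]
  refine Set.eq_empty_of_forall_notMem (fun w hw => ?_)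
  obtain ⟨_, _, h3⟩ := mem_Rset.1 hw
  rw [cop_nil] at h3
  exact hk h3.symm

theorem N_one_eq {n k : ℕ} (hk : n ≠ k) : N [1] n k = 0 := by
  unfold N
  rw [Set.ncard_eq_zero (finite_Rset [1] n k)]
  refine Set.eq_empty_of_forall_notMem (fun w hw => ?_)
  obtain ⟨h1, _, h3⟩ := mem_Rset.1 hw
  rw [cop_one] at h3
  omega

theorem N_nil_one : N [] 0 1 = 1 := by
  have h : Rset [] 0 1 = {[]} := by
    ext w
    constructor
    · intro hw
      exact List.length_eq_zero_iff.1 (mem_Rset.1 hw).1
    · intro hw
      have hw' : w = [] := hw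
      subst hw'
      exact mem_Rset.2 ⟨rfl, trivial, cop_nil _⟩
  unfold N
  rw [h, Set.ncard_singleton]

theorem N_zero_one {v : List ℕ} (hv : v ≠ []) : N v 0 1 = 0 := by
  unfold N
  rw [Set.ncard_eq_zero (finite_Rset v 0 1)]
  refine Set.eq_empty_of_forall_notMem (fun w hw => ?_)
  obtain ⟨h1, _, h3⟩ := mem_Rset.1 hw
  have h4 : {p | Cop v w p} = ∅ := by
    refine Set.eq_empty_of_forall_notMem (fun p hp => ?_)
    have h6 := hp.2.1 ⟨0, List.length_pos_of_ne_nil hv⟩
    omega
  rw [h4, Set.ncard_empty] at h3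
  omega

theorem ones (n : ℕ) (M : ℕ) : RGFFrom M (List.replicate n 1) := by
  induction n generalizing M with
  | zero => trivial
  | succ n ih => exact ⟨le_rfl, by omega, ih _⟩

theorem N_one_pos (k : ℕ) : 1 ≤ N [1] k k := by
  have h : List.replicate k 1 ∈ Rset [1] k k := by
    refine mem_Rset.2 ⟨by simp, ones k 0, ?_⟩
    rw [cop_one]
    simp
  exact (Set.ncard_pos (finite_Rset [1] k k)).2 ⟨_, h⟩

/-- a pattern with at most one letter -/
theorem short_cases {v : List ℕ} (hv : IsRGF v) (h : v.length < 2) : v = [] ∨ v = [1] := by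
  cases v with
  | nil => left; rfl
  | cons a v =>
    right
    cases v with
    | nil =>
      obtain ⟨h1, h2, _⟩ := hv
      have : a = 1 := by omega
      rw [this]
    | cons b v =>
      simp at h

/-- a pattern with at least two letters is not equivalent to a shorter one -/
theorem not_short {v w : List ℕ} (hv : IsRGF v) (h2 : 2 ≤ v.length) (hw : IsRGF w) {k : ℕ}
    (he : ∀ n, N v n k = N w n k) : 2 ≤ w.length := by
  by_contra hcon
  obtain ⟨c, hc⟩ := pos_of_large hv h2 k
  have hne : v ≠ [] := by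
    rintro rfl
    simp at h2
  rcases short_cases hw (by omega) with h | h
  · subst h
    by_cases hk : k = 1
    · subst hk
      have h3 := he 0
      rw [N_nil_one, N_zero_one hne] at h3
      omega
    · have h3 := he c
      rw [N_nil_eq hk] at h3
      have := hc c le_rfl
      omega
  · subst h
    have h3 := he (c + k + 1)
    rw [N_one_eq (by omega)] at h3
    have := hc (c + k + 1) (by omega)
    omega

theorem short_eq {v w : List ℕ} (hv : IsRGF v) (h2 : v.length < 2) (hw : IsRGF w)
    (h3 : w.length < 2) {k : ℕ} (he : ∀ n, N v n k = N w n k) : v = w := by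
  have key : ¬ ∀ n, N [] n k = N [1] n k := by
    intro h
    by_cases hk : k = 1
    · subst hk
      have h4 := h 0
      rw [N_nil_one, N_one_eq (by omega)] at h4
      omega
    · have h4 := h k
      rw [N_nil_eq hk] at h4
      have := N_one_pos k
      omega
  rcases short_cases hv h2 with h | h <;> rcases short_cases hw h3 with h' | h'
  · rw [h, h']
  · rw [h, h'] at he
    exact absurd he key
  · rw [h, h'] at he
    exact absurd (fun n => (he n).symm) key
  · rw [h, h']

/-- comparison up to a power of `n` does not depend on the number of copies -/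
theorem compare {v w : List ℕ} (hv : IsRGF v) (hv2 : 2 ≤ v.length) (hw : IsRGF w)
    (hw2 : 2 ≤ w.length) {k : ℕ} (h : ∃ C, ∀ n, C ≤ n → N v n k ≤ n ^ C * N w n k) (j : ℕ) :
    ∃ C, ∀ n, C ≤ n → N v n j ≤ n ^ C * N w n j := by
  obtain ⟨A, hA⟩ := main hv hv2 j k
  obtain ⟨B, hB⟩ := main hw hw2 k j
  obtain ⟨D, hD⟩ := h
  refine ⟨A + D + B + 1, fun n hn => ?_⟩
  have h1 := hA n (by omega)
  have h2 := hB n (by omega)
  have h3 := hD n (by omega)
  calc N v n j ≤ n ^ A * N v n k := h1
    _ ≤ n ^ A * (n ^ D * N w n k) := Nat.mul_le_mul_left _ h3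
    _ ≤ n ^ A * (n ^ D * (n ^ B * N w n j)) := Nat.mul_le_mul_left _ (Nat.mul_le_mul_left _ h2)
    _ = n ^ (A + D + B) * N w n j := by ring
    _ ≤ n ^ (A + D + B + 1) * N w n j :=
      Nat.mul_le_mul_right _ (Nat.pow_le_pow_right (by omega) (by omega))

/-- `k`-Wilf equivalent patterns have the same numbers for every `j`, up to a power of `n` -/
theorem wilf {v w : List ℕ} (hv : IsRGF v) (hw : IsRGF w) {k : ℕ}
    (he : ∀ n, N v n k = N w n k) (j : ℕ) :
    ∃ C, ∀ n, C ≤ n → N v n j ≤ n ^ C * N w n j := by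
  have refl : ∀ u : List ℕ, ∀ i, ∃ C, ∀ n, C ≤ n → N u n i ≤ n ^ C * N u n i := by
    intro u i
    refine ⟨1, fun n hn => ?_⟩
    rw [pow_one]
    exact Nat.le_mul_of_pos_left _ (by omega)
  rcases Nat.lt_or_ge v.length 2 with h1 | h1
  · rcases Nat.lt_or_ge w.length 2 with h2 | h2
    · rw [short_eq hv h1 hw h2 he]
      exact refl w j
    · have := not_short hw h2 hv (fun n => (he n).symm)
      omega
  · have h2 := not_short hv h1 hw he
    refine compare hv h1 hw h2 (k := k) ?_ j
    obtain ⟨C, hC⟩ := refl w k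
    exact ⟨C, fun n hn => by rw [he n]; exact hC n hn⟩

end Pool.Agent.Lib_helper37.RG
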